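import Mathlib

/-!
# Codes of finite binary strings
-/

set_option autoImplicit false

open Filter Set Topology

namespace Pool.Agent.W_MP_88e59f_gt

lemma bit_inj_aux {a b : Bool} {m n : ℕ} (h : Nat.bit a m = Nat.bit b n) : a = b ∧ m = n := by
  rw [Nat.bit_val, Nat.bit_val] at h
  cases a <;> cases b <;> simp only [Bool.toNat_true, Bool.toNat_false] at h <;>
    first
    | exact ⟨rfl, by omega⟩
    | (exfalso; omega)

/-- the code of the first `n` digits of `x` -/
def code (x : ℕ → Bool) : ℕ → ℕ
  | 0 => 1
  | n + 1 => Nat.bit (x n) (code x n)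

lemma code_zero (x : ℕ → Bool) : code x 0 = 1 := rfl

lemma code_succ (x : ℕ → Bool) (n : ℕ) : code x (n + 1) = Nat.bit (x n) (code x n) := rfl

lemma code_pos (x : ℕ → Bool) (n : ℕ) : 0 < code x n := by
  induction n with
  | zero => simp [code_zero]
  | succ n ih =>
    rw [code_succ, Nat.bit_val]
    omega

lemma code_lt_succ (x : ℕ → Bool) (n : ℕ) : code x n < code x (n + 1) := by
  have := code_pos x n
  rw [code_succ, Nat.bit_val]
  omega

lemma code_strictMono (x : ℕ → Bool) : StrictMono (code x) :=
  strictMono_nat_of_lt_succ (code_lt_succ x)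

lemma le_code (x : ℕ → Bool) (n : ℕ) : n ≤ code x n := (code_strictMono x).le_apply

lemma code_ne_of_lt (x y : ℕ → Bool) {n m : ℕ} (h : code x n = code y m) : n = m := by
  induction n generalizing m with
  | zero =>
    cases m with
    | zero => rfl
    | succ m =>
      exfalso
      have := code_pos y m
      rw [code_zero, code_succ, Nat.bit_val] at h
      omega
  | succ n ih =>
    cases m with
    | zero =>
      exfalso
      have := code_pos x n
      rw [code_zero, code_succ, Nat.bit_val] at h
      omega
    | succ m =>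
      have h2 : code x n = code y m := by
        rw [code_succ, code_succ] at h
        exact (bit_inj_aux h).2
      rw [ih h2]

lemma code_inj {x y : ℕ → Bool} {n m : ℕ} (h : code x n = code y m) :
    n = m ∧ ∀ i < n, x i = y i := by
  have hnm := code_ne_of_lt x y h
  subst hnm
  refine ⟨rfl, ?_⟩
  induction n with
  | zero => intro i hi; omega
  | succ n ih =>
    have h2 : code x n = code y n ∧ x n = y n := by
      rw [code_succ, code_succ] at h
      exact (bit_inj_aux h).symm
    intro i hi
    rcases Nat.lt_succ_iff_lt_or_eq.1 hi with hi | hi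
    · exact ih h2.1 i hi
    · rw [hi]; exact h2.2

/-- every positive natural number is a code -/
lemma exists_code {k : ℕ} (hk : 0 < k) : ∃ (x : ℕ → Bool) (n : ℕ), code x n = k := by
  induction k using Nat.strong_induction_on with
  | _ k ih =>
    by_cases h1 : k = 1
    · exact ⟨fun _ => false, 0, by rw [code_zero, h1]⟩
    · obtain ⟨x, n, hx⟩ := ih (k / 2) (by omega) (by omega)
      refine ⟨fun i => if i = n then Nat.bodd k else x i, n + 1, ?_⟩
      have hc : ∀ m ≤ n, code (fun i => if i = n then Nat.bodd k else x i) m = code x m := by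
        intro m hm
        induction m with
        | zero => rfl
        | succ m ihm =>
          rw [code_succ, code_succ, ihm (by omega)]
          simp [show m ≠ n by omega]
      rw [code_succ, hc n le_rfl, hx]
      simp only [if_true]
      rw [← Nat.div2_val]
      exact Nat.bit_bodd_div2 k

/-- The combinatorial content of the branches of the binary tree, first form: for a sequence of
positive integers tending to infinity there are a subsequence and a point `x` such that every branch
other than `x` meets only finitely many members of the subsequence. -/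
lemma subseq_codes (k : ℕ → ℕ) (hk : Tendsto k atTop atTop) :
    ∃ (x : ℕ → Bool) (φ : ℕ → ℕ), StrictMono φ ∧
      ∀ y : ℕ → Bool, y ≠ x → ∀ᶠ n in atTop, k (φ n) ∉ range (code y) := by
  have hex : ∀ n, ∃ (c : ℕ → Bool), 0 < k n → ∃ l, code c l = k n := by
    intro n
    by_cases h : 0 < k n
    · obtain ⟨c, l, hc⟩ := exists_code h
      exact ⟨c, fun _ => ⟨l, hc⟩⟩
    · exact ⟨fun _ => false, fun h' => absurd h' h⟩
  choose c hc using hex
  obtain ⟨x, φ, hφ, hx⟩ := CompactSpace.tendsto_subseq c
  refine ⟨x, φ, hφ, fun y hy => ?_⟩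
  obtain ⟨i, hi⟩ : ∃ i, y i ≠ x i := by
    by_contra h
    push Not at h
    exact hy (funext h)
  have h1 : ∀ᶠ n in atTop, c (φ n) i = x i := by
    have h2 : Tendsto (fun n => c (φ n) i) atTop (𝓝 (x i)) :=
      ((continuous_apply i).tendsto x).comp hx
    have h3 := h2 (isOpen_discrete {x i} |>.mem_nhds rfl)
    exact h3
  -- the lengths tend to infinity
  have h4 : ∀ᶠ n in atTop, 2 ^ (i + 1) < k (φ n) :=
    (hk.comp hφ.tendsto_atTop).eventually_gt_atTop _
  filter_upwards [h1, h4] with n hn1 hn2
  rintro ⟨m, hm⟩
  have hpos : 0 < k (φ n) := lt_of_le_of_lt (Nat.zero_le _) hn2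
  obtain ⟨l, hl⟩ := hc (φ n) hpos
  have hml : code y m = code (c (φ n)) l := by rw [hm, hl]
  obtain ⟨_, hagree⟩ := code_inj hml
  have hmi : i < m := by
    by_contra hlt
    have hub : ∀ (z : ℕ → Bool) (j : ℕ), code z j < 2 ^ (j + 1) := by
      intro z j
      induction j with
      | zero => simp [code_zero]
      | succ j ih =>
        rw [code_succ, Nat.bit_val, pow_succ]
        cases z j <;> simp <;> omega
    have h5 := hub y m
    have h6 : 2 ^ (m + 1) ≤ 2 ^ (i + 1) := Nat.pow_le_pow_right (by norm_num) (by omega)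
    rw [hm] at h5
    omega
  exact hi (by rw [hagree i hmi, hn1])

/-- Second form: for an injective sequence of points of the Cantor set there are a subsequence and a
point `x` and cut-off levels such that the branches cut off at these levels avoid every other branch
eventually, and avoid `x` completely. -/
lemma subseq_branches (c : ℕ → ℕ → Bool) (hc : Function.Injective c) :
    ∃ (x : ℕ → Bool) (φ : ℕ → ℕ) (L : ℕ → ℕ), StrictMono φ ∧ (∀ n, c (φ n) ≠ x) ∧
      (∀ n m, L n < m → code (c (φ n)) m ∉ range (code x)) ∧
      ∀ y : ℕ → Bool, y ≠ x → ∀ᶠ n in atTop, ∀ m, L n < m → code (c (φ n)) m ∉ range (code y) := by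
  obtain ⟨x, φ, hφ, hx⟩ := CompactSpace.tendsto_subseq c
  -- at most one term equals `x`
  have hev : ∀ᶠ n in atTop, c (φ n) ≠ x := by
    by_cases h : ∃ n0, c (φ n0) = x
    · obtain ⟨n0, h0⟩ := h
      filter_upwards [eventually_gt_atTop n0] with n hn heq
      exact absurd (hφ.injective (hc (heq.trans h0.symm))) hn.ne'
    · push Not at h
      exact Eventually.of_forall h
  obtain ⟨N, hN⟩ := eventually_atTop.1 hev
  have hne : ∀ n, c (φ (n + N)) ≠ x := fun n => hN _ (Nat.le_add_left _ _)
  have hdiff : ∀ n, ∃ i, c (φ (n + N)) i ≠ x i := by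
    intro n
    by_contra h
    push Not at h
    exact hne n (funext h)
  classical
  let L : ℕ → ℕ := fun n => Nat.find (hdiff n)
  have hL1 : ∀ n, c (φ (n + N)) (L n) ≠ x (L n) := fun n => Nat.find_spec (hdiff n)
  have hL2 : ∀ n, ∀ i < L n, c (φ (n + N)) i = x i := fun n i hi => by
    have := Nat.find_min (hdiff n) hi
    exact not_not.1 this
  refine ⟨x, fun n => φ (n + N), L, fun a b hab => hφ (by omega), hne, ?_, ?_⟩
  · rintro n m hm ⟨m', hm'⟩
    obtain ⟨rfl, hag⟩ := code_inj hm'
    exact hL1 n (hag (L n) hm).symm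
  · intro y hy
    obtain ⟨i, hi⟩ : ∃ i, y i ≠ x i := by
      by_contra h
      push Not at h
      exact hy (funext h)
    have h1 : ∀ᶠ n in atTop, c (φ n) i = x i := by
      have h2 : Tendsto (fun n => c (φ n) i) atTop (𝓝 (x i)) :=
        ((continuous_apply i).tendsto x).comp hx
      exact h2 (isOpen_discrete {x i} |>.mem_nhds rfl)
    have h1' : ∀ j, ∀ᶠ n in atTop, c (φ n) j = x j := by
      intro j
      have h2 : Tendsto (fun n => c (φ n) j) atTop (𝓝 (x j)) :=
        ((continuous_apply j).tendsto x).comp hx
      exact h2 (isOpen_discrete {x j} |>.mem_nhds rfl)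
    have h3 : ∀ᶠ n in atTop, ∀ j ≤ i, c (φ n) j = x j := by
      have := (Set.finite_Iic i).eventually_all (l := atTop) (p := fun j n => c (φ n) j = x j)
      exact this.2 (fun j _ => h1' j)
    have h4 : ∀ᶠ n in atTop, ∀ j ≤ i, c (φ (n + N)) j = x j :=
      (tendsto_add_atTop_nat N).eventually h3
    filter_upwards [h4] with n hn
    rintro m hm ⟨m', hm'⟩
    obtain ⟨rfl, hag⟩ := code_inj hm'
    have hLi : i < L n := by
      by_contra hlt
      exact hL1 n (hn (L n) (not_lt.1 hlt))
    exact hi ((hag i (hLi.trans hm)).trans (hL2 n i hLi))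

end Pool.Agent.W_MP_88e59f_gt
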