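import Mathlib

/-!
# The topological notions of the problem
-/

set_option autoImplicit false

open Set Filter Topology

namespace Pool.Agent.W_MP_88e59f_gt

/-- A space is scattered if every nonempty subset `S` has a point that is isolated in `S`. -/
def Scattered (X : Type) [TopologicalSpace X] : Prop :=
  ∀ S : Set X, S.Nonempty → ∃ x ∈ S, ∃ V : Set X, IsOpen V ∧ V ∩ S = {x}

/-- Property wD: every infinite closed discrete set `D` has an infinite subset `D'` which expands to
a discrete family `(U d)` (`d ∈ D'`) of open sets with `d ∈ U d`; a family is discrete if every point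
of the space has a neighbourhood that meets at most one member of it. -/
def PropertyWD (X : Type) [TopologicalSpace X] : Prop :=
  ∀ D : Set X, D.Infinite → IsClosed D → DiscreteTopology D →
    ∃ D' : Set X, D' ⊆ D ∧ D'.Infinite ∧ ∃ U : X → Set X,
      (∀ d ∈ D', IsOpen (U d) ∧ d ∈ U d) ∧
      ∀ x : X, ∃ V ∈ 𝓝 x, {d ∈ D' | (V ∩ U d).Nonempty}.Subsingleton

/-- A space satisfies wD hereditarily if each of its subspaces satisfies wD. -/
def HereditarilyWD (X : Type) [TopologicalSpace X] : Prop :=
  ∀ Z : Set X, PropertyWD Z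

/-- A space is bisequential if for every point `x` and every ultrafilter `𝒰` converging to `x` there
is a decreasing sequence of members of `𝒰` that converges to `x`. -/
def Bisequential (X : Type) [TopologicalSpace X] : Prop :=
  ∀ (x : X) (𝒰 : Ultrafilter X), (𝒰 : Filter X) ≤ 𝓝 x →
    ∃ A : ℕ → Set X, Antitone A ∧ (∀ n, A n ∈ 𝒰) ∧ ∀ V ∈ 𝓝 x, ∃ n, A n ⊆ V

end Pool.Agent.W_MP_88e59f_gt
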