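import Pool.Agent.W_MP_88e59f_gt.Topology

/-!
# Existence of the data on a well-order of type omega_2
-/

set_option autoImplicit false

open Cardinal Order Set Filter Topology

namespace Pool.Agent.W_MP_88e59f_gt

/-- the well-order of type `ω₂` -/
abbrev W2 : Type := (ℵ_ 2 : Cardinal.{0}).ord.ToType

lemma aleph_two_eq : (ℵ_ 2 : Cardinal.{0}) = succ (ℵ_ 1) := by
  rw [succ_aleph]
  congr 1
  norm_num

lemma cof_W2 : Order.cof W2 = ℵ_ 2 := by
  rw [Ordinal.cof_toType]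
  have h : (ℵ_ 2 : Cardinal.{0}).IsRegular := by
    rw [aleph_two_eq]
    exact isRegular_succ (aleph0_le_aleph 1)
  exact h.cof_ord

lemma aleph_one_lt_cof : ℵ_ 1 < Order.cof W2 := by
  rw [cof_W2, aleph_two_eq]
  exact lt_succ _

lemma mk_Iio_W2 (a : W2) : #(Iio a) ≤ 𝔠 := by
  have h1 : #(Iio a) < #W2 := by
    apply mk_Iio_lt
    simp
  have h2 : #W2 = ℵ_ 2 := by simp
  have h3 : #(Iio a) < succ (ℵ_ 1) := lt_of_lt_of_eq h1 (h2.trans aleph_two_eq)
  exact (lt_succ_iff.1 h3).trans aleph_one_le_continuum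

lemma nonempty_W2 : Nonempty W2 := by
  rw [← mk_ne_zero_iff]
  have h2 : #W2 = ℵ_ 2 := by simp
  rw [h2]
  exact (aleph_pos 2).ne'

lemma noMaxOrder_W2 : NoMaxOrder W2 := by
  have := nonempty_W2
  rw [← noTopOrder_iff_noMaxOrder, ← one_lt_cof_iff]
  exact (one_lt_aleph0.trans aleph0_lt_aleph_one).trans aleph_one_lt_cof

lemma exists_coding (δ : W2) : ∃ f : (ℕ → W2) → (ℕ → Bool),
    ∀ B B' : ℕ → W2, (∀ k, B k < δ) → (∀ k, B' k < δ) → f B = f B' → B = B' := by
  have h1 : #(ℕ → Iio δ) ≤ #(ℕ → Bool) := by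
    have h2 : #(ℕ → Iio δ) = #(Iio δ) ^ ℵ₀ := by simp
    have h3 : #(ℕ → Bool) = 𝔠 := by simp
    rw [h2, h3, ← continuum_power_aleph0]
    exact power_le_power_right (mk_Iio_W2 δ)
  obtain ⟨g⟩ := (Cardinal.le_def _ _).1 h1
  classical
  refine ⟨fun B => if h : ∀ k, B k < δ then g (fun k => ⟨B k, h k⟩) else fun _ => false, ?_⟩
  intro B B' hB hB' heq
  simp only [dif_pos hB, dif_pos hB'] at heq
  have h4 := g.injective heq
  funext k
  exact congrArg Subtype.val (congrFun h4 k)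

lemma exists_data : ∃ Λ : Data W2, Guesses Λ.e := by
  have := nonempty_W2
  have := noMaxOrder_W2
  obtain ⟨e, he1, he2⟩ := exists_guess (α := W2) aleph_one_lt_cof
  choose j hj using exists_coding
  exact ⟨⟨e, fun δ hδ => (he1 δ hδ).1, fun δ hδ => (he1 δ hδ).2, j, hj⟩, he2⟩

/-- The main theorem. -/
theorem main : ∃ (X : Type) (_ : TopologicalSpace X),
    T2Space X ∧ CompactSpace X ∧ FrechetUrysohnSpace X ∧ Scattered X ∧ HereditarilyWD X ∧
      ¬ Bisequential X := by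
  have := nonempty_W2
  have := noMaxOrder_W2
  have hcof : ℵ₀ < Order.cof W2 := aleph0_lt_aleph_one.trans aleph_one_lt_cof
  obtain ⟨Λ, hΛ⟩ := exists_data
  exact ⟨Sp Λ, inferInstance, inferInstance, inferInstance, frechetUrysohn_sp hcof,
    scattered_sp, hereditarilyWD_sp hcof, not_bisequential hcof hΛ⟩

end Pool.Agent.W_MP_88e59f_gt
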