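import Pool.Agent.W_MP_88e59f_gt.Guess
import Pool.Agent.W_MP_88e59f_gt.Code

/-!
# The almost disjoint family
-/

set_option autoImplicit false
set_option linter.unusedSectionVars false

open Cardinal Order Set Filter

namespace Pool.Agent.W_MP_88e59f_gt

section

variable {α : Type} [LinearOrder α] [WellFoundedLT α]

/-- the data used to build the family: a ladder system and a coding of block sequences by points of
the Cantor set -/
structure Data (α : Type) [LinearOrder α] where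
  e : α → ℕ → α
  e_mono : ∀ δ ∈ Scof α, StrictMono (e δ)
  e_lub : ∀ δ ∈ Scof α, IsLUB (range (e δ)) δ
  j : α → (ℕ → α) → (ℕ → Bool)
  j_inj : ∀ (δ : α) (B B' : ℕ → α), (∀ k, B k < δ) → (∀ k, B' k < δ) → j δ B = j δ B' → B = B'

/-- index set of the family -/
def Idx (Λ : Data α) : Type :=
  {p : α × (ℕ → α) // p.1 ∈ Scof α ∧ ∀ k, Λ.e p.1 k ≤ p.2 k ∧ p.2 k < Λ.e p.1 (k + 1)}

namespace Idx

variable {Λ : Data α}

/-- level -/
def lev (p : Idx Λ) : α := p.1.1

/-- block sequence -/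
def blk (p : Idx Λ) : ℕ → α := p.1.2

/-- branch -/
def br (p : Idx Λ) : ℕ → Bool := Λ.j p.lev p.blk

/-- the increasing enumeration of the member of the family with index `p` -/
def seq (p : Idx Λ) (n : ℕ) : α := p.blk (code p.br n)

lemma lev_mem (p : Idx Λ) : p.lev ∈ Scof α := p.2.1

lemma le_blk (p : Idx Λ) (k : ℕ) : Λ.e p.lev k ≤ p.blk k := (p.2.2 k).1

lemma blk_lt (p : Idx Λ) (k : ℕ) : p.blk k < Λ.e p.lev (k + 1) := (p.2.2 k).2

lemma e_lt_lev (p : Idx Λ) (k : ℕ) : Λ.e p.lev k < p.lev :=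
  lt_of_lt_of_le (Λ.e_mono _ p.lev_mem (Nat.lt_succ_self k))
    ((Λ.e_lub _ p.lev_mem).1 ⟨k + 1, rfl⟩)

lemma blk_lt_lev (p : Idx Λ) (k : ℕ) : p.blk k < p.lev := (p.blk_lt k).trans (p.e_lt_lev _)

lemma blk_strictMono (p : Idx Λ) : StrictMono p.blk :=
  strictMono_nat_of_lt_succ fun k => (p.blk_lt k).trans_le (p.le_blk (k + 1))

lemma seq_strictMono (p : Idx Λ) : StrictMono p.seq :=
  p.blk_strictMono.comp (code_strictMono _)

lemma seq_lt_lev (p : Idx Λ) (n : ℕ) : p.seq n < p.lev := p.blk_lt_lev _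

lemma e_le_seq (p : Idx Λ) (n : ℕ) : Λ.e p.lev n ≤ p.seq n :=
  (p.le_blk n).trans (p.blk_strictMono.monotone (le_code _ _))

lemma exists_lt_seq (p : Idx Λ) {b : α} (hb : b < p.lev) : ∃ N, ∀ n, N ≤ n → b < p.seq n := by
  obtain ⟨_, ⟨N, rfl⟩, hN⟩ := (lt_isLUB_iff (Λ.e_lub _ p.lev_mem)).1 hb
  exact ⟨N, fun n hn => hN.trans_le ((p.e_le_seq N).trans (p.seq_strictMono.monotone hn))⟩

lemma ext' {p q : Idx Λ} (h1 : p.lev = q.lev) (h2 : p.blk = q.blk) : p = q :=
  Subtype.ext (Prod.ext h1 h2)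

lemma eq_of_br {p q : Idx Λ} (h1 : p.lev = q.lev) (h2 : p.br = q.br) : p = q := by
  refine ext' h1 (Λ.j_inj p.lev _ _ p.blk_lt_lev (fun k => ?_) ?_)
  · rw [h1]; exact q.blk_lt_lev k
  · have : q.br = Λ.j p.lev q.blk := by rw [h1]; rfl
    rw [← this, ← h2]
    rfl

/-- the block number of a value is determined by the ladder -/
lemma block_unique (Λ : Data α) {δ : α} (hδ : δ ∈ Scof α) {k m : ℕ} {v : α}
    (h1 : Λ.e δ k ≤ v) (h2 : v < Λ.e δ (k + 1)) (h3 : Λ.e δ m ≤ v) (h4 : v < Λ.e δ (m + 1)) :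
    k = m := by
  have hm := Λ.e_mono δ hδ
  have a := hm.lt_iff_lt.1 (h1.trans_lt h4)
  have b := hm.lt_iff_lt.1 (h3.trans_lt h2)
  omega

lemma code_eq_of_seq_eq {p q : Idx Λ} (h1 : p.lev = q.lev) {n m : ℕ} (h : p.seq n = q.seq m) :
    code p.br n = code q.br m := by
  apply block_unique Λ p.lev_mem (v := p.seq n) (p.le_blk _) (p.blk_lt _)
  · rw [h, h1]; exact q.le_blk _
  · rw [h, h1]; exact q.blk_lt _

/-- elements of a member of the family of higher level are bounded away from `δ` -/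
lemma exists_bound_of_lt (Λ : Data α) {δ : α} (hδ : δ ∈ Scof α) (q : Idx Λ) (hq : q.lev ≠ δ) :
    ∃ n0, ∀ i, q.seq i < δ → q.seq i < Λ.e δ n0 := by
  rcases lt_or_gt_of_ne hq with hq | hq
  · obtain ⟨_, ⟨n0, rfl⟩, hn0⟩ := (lt_isLUB_iff (Λ.e_lub _ hδ)).1 hq
    exact ⟨n0, fun i _ => (q.seq_lt_lev i).trans hn0⟩
  · obtain ⟨N, hN⟩ := q.exists_lt_seq hq
    by_cases h0 : q.seq 0 < δ
    · have hfin : ∀ M, ∃ n0, ∀ i < M, q.seq i < δ → q.seq i < Λ.e δ n0 := by
        intro M
        induction M with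
        | zero => exact ⟨0, fun i hi => absurd hi (Nat.not_lt_zero _)⟩
        | succ M ih =>
          obtain ⟨n0, hn0⟩ := ih
          by_cases hM : q.seq M < δ
          · obtain ⟨_, ⟨n1, rfl⟩, hn1⟩ := (lt_isLUB_iff (Λ.e_lub _ hδ)).1 hM
            refine ⟨max n0 n1, fun i hi hlt => ?_⟩
            rcases Nat.lt_succ_iff_lt_or_eq.1 hi with hi | hi
            · exact (hn0 i hi hlt).trans_le ((Λ.e_mono δ hδ).monotone (le_max_left _ _))
            · rw [hi]
              exact hn1.trans_le ((Λ.e_mono δ hδ).monotone (le_max_right _ _))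
          · refine ⟨n0, fun i hi hlt => ?_⟩
            rcases Nat.lt_succ_iff_lt_or_eq.1 hi with hi | hi
            · exact hn0 i hi hlt
            · rw [hi] at hlt
              exact absurd hlt hM
      obtain ⟨n0, hn0⟩ := hfin N
      refine ⟨n0, fun i hi => hn0 i ?_ hi⟩
      by_contra hlt
      exact absurd (hN i (not_lt.1 hlt)) (not_lt.2 hi.le)
    · exact ⟨0, fun i hi => absurd ((q.seq_strictMono.monotone (Nat.zero_le i)).trans_lt hi) h0⟩

/-- **Almost disjointness**, tail form. -/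
lemma ad_tail {p q : Idx Λ} (h : p ≠ q) : ∃ N, ∀ n, N ≤ n → p.seq n ∉ range q.seq := by
  by_cases hl : p.lev = q.lev
  · have hbr : p.br ≠ q.br := fun h' => h (eq_of_br hl h')
    obtain ⟨i, hi⟩ : ∃ i, p.br i ≠ q.br i := by
      by_contra h'
      push Not at h'
      exact hbr (funext h')
    refine ⟨i + 1, fun n hn => ?_⟩
    rintro ⟨m, hm⟩
    obtain ⟨-, hag⟩ := code_inj (code_eq_of_seq_eq hl hm.symm)
    exact hi (hag i (by omega))
  · obtain ⟨n0, hn0⟩ := exists_bound_of_lt Λ p.lev_mem q (Ne.symm hl)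
    refine ⟨n0, fun n hn => ?_⟩
    rintro ⟨m, hm⟩
    have h1 := hn0 m (by rw [hm]; exact p.seq_lt_lev n)
    rw [hm] at h1
    exact absurd ((p.e_le_seq n0).trans (p.seq_strictMono.monotone hn)) (not_le.2 h1)

lemma ad_finite {p q : Idx Λ} (h : p ≠ q) : (range p.seq ∩ range q.seq).Finite := by
  obtain ⟨N, hN⟩ := ad_tail h
  refine ((Set.finite_Iio N).image p.seq).subset ?_
  rintro _ ⟨⟨n, rfl⟩, hn⟩
  refine ⟨n, ?_, rfl⟩
  by_contra hlt
  exact hN n (not_lt.1 hlt) hn

end Idx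

open Idx

/-- a sequence of elements with values in a well-order has a subsequence that is either strictly
increasing or constant -/
lemma subseq_const_or_strictMono (f : ℕ → α) :
    ∃ g : ℕ → ℕ, StrictMono g ∧ (StrictMono (f ∘ g) ∨ ∃ δ, ∀ n, f (g n) = δ) := by
  obtain ⟨g, hg⟩ := exists_increasing_or_nonincreasing_subseq (· < ·) f
  rcases hg with hg | hg
  · exact ⟨g, g.strictMono, Or.inl fun m n hmn => hg m n hmn⟩
  · have hanti : Antitone (fun n => f (g n)) := by
      intro m n hmn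
      rcases hmn.lt_or_eq with h | h
      · exact not_lt.1 (hg m n h)
      · rw [h]
    obtain ⟨i, hi⟩ := antitone_stab (fun n => f (g n)) hanti
    refine ⟨fun n => g (n + i), fun a b hab => g.strictMono (by omega), Or.inr ⟨f (g i), fun n => ?_⟩⟩
    exact hi (n + i) (Nat.le_add_left _ _)

/-- **The key property (wD of the family).** -/
theorem key_wD (hcof : ℵ₀ < Order.cof α) (Λ : Data α) (d : ℕ → Idx Λ)
    (hd : Function.Injective d) :
    ∃ (φ : ℕ → ℕ) (N : ℕ → ℕ), StrictMono φ ∧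
      ∀ q : Idx Λ, ∀ᶠ n in atTop, ∀ i, N n ≤ i → (d (φ n)).seq i ∉ range q.seq := by
  obtain ⟨g, hg, hcase⟩ := subseq_const_or_strictMono (fun n => (d n).lev)
  rcases hcase with hinc | ⟨δ, hδ⟩
  · -- strictly increasing levels
    have hb : BddAbove (range fun n => (d (g n)).lev) := by
      refine .of_not_isCofinal fun hg ↦ (cof_le hg).not_gt (hcof.trans_le' ?_)
      simpa using mk_range_le_lift (f := fun n => (d (g n)).lev)
    obtain ⟨δ, hδ⟩ := exists_isLUB_of_bdd hb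
    have hδS : δ ∈ Scof α := ⟨_, hinc, hδ⟩
    have hmono := Λ.e_mono δ hδS
    have hlub := Λ.e_lub δ hδS
    have hlt : ∀ n, (d (g n)).lev < δ := fun n =>
      lt_of_lt_of_le (hinc (Nat.lt_succ_self n)) (hδ.1 ⟨n + 1, rfl⟩)
    have hK : ∀ n, ∃ K, (d (g n)).lev ≤ Λ.e δ K := by
      intro n
      obtain ⟨_, ⟨K, rfl⟩, h⟩ := (lt_isLUB_iff hlub).1 (hlt n)
      exact ⟨K, h.le⟩
    classical
    let K : ℕ → ℕ := fun n => Nat.find (hK n)
    have hK1 : ∀ n, (d (g n)).lev ≤ Λ.e δ (K n) := fun n => Nat.find_spec (hK n)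
    have hK2 : ∀ n, ∀ m < K n, Λ.e δ m < (d (g n)).lev := fun n m hm =>
      not_le.1 (Nat.find_min (hK n) hm)
    have hKtop : Tendsto (fun n => K n - 1) atTop atTop := by
      refine tendsto_atTop.2 fun m => ?_
      have h1 : Λ.e δ (m + 1) < δ :=
        lt_of_lt_of_le (hmono (Nat.lt_succ_self _)) (hlub.1 ⟨m + 2, rfl⟩)
      obtain ⟨_, ⟨n0, rfl⟩, hn0⟩ := (lt_isLUB_iff hδ).1 h1
      filter_upwards [eventually_ge_atTop n0] with n hn
      have h2 : Λ.e δ (m + 1) < Λ.e δ (K n) :=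
        (hn0.trans_le (hinc.monotone hn)).trans_le (hK1 n)
      have := hmono.lt_iff_lt.1 h2
      omega
    obtain ⟨x, φ, hφ, hx⟩ := subseq_codes _ hKtop
    have hkφ : Tendsto (fun n => K (φ n) - 1) atTop atTop := hKtop.comp hφ.tendsto_atTop
    -- tails
    have hN : ∀ n, ∃ N, ∀ i, N ≤ i → (0 < K (φ n) → Λ.e δ (K (φ n) - 1) < (d (g (φ n))).seq i) ∧
        (∀ q : Idx Λ, q.lev = δ → q.br = x → (d (g (φ n))).seq i ∉ range q.seq) := by
      intro n
      have h1 : ∃ N, ∀ i, N ≤ i → (0 < K (φ n) → Λ.e δ (K (φ n) - 1) < (d (g (φ n))).seq i) := by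
        by_cases h : 0 < K (φ n)
        · obtain ⟨N, hN⟩ := (d (g (φ n))).exists_lt_seq (hK2 (φ n) (K (φ n) - 1) (by omega))
          exact ⟨N, fun i hi _ => hN i hi⟩
        · exact ⟨0, fun i _ h' => absurd h' h⟩
      have h2 : ∃ N, ∀ i, N ≤ i →
          (∀ q : Idx Λ, q.lev = δ → q.br = x → (d (g (φ n))).seq i ∉ range q.seq) := by
        by_cases h : ∃ q : Idx Λ, q.lev = δ ∧ q.br = x
        · obtain ⟨q, hq1, hq2⟩ := h
          have hne : d (g (φ n)) ≠ q := by
            intro heq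
            have := hlt (φ n)
            rw [heq, hq1] at this
            exact lt_irrefl _ this
          obtain ⟨N, hN⟩ := ad_tail hne
          refine ⟨N, fun i hi q' h1 h2 => ?_⟩
          have : q' = q := eq_of_br (h1.trans hq1.symm) (h2.trans hq2.symm)
          rw [this]
          exact hN i hi
        · exact ⟨0, fun i _ q h1 h2 => absurd ⟨q, h1, h2⟩ h⟩
      obtain ⟨N1, hN1⟩ := h1
      obtain ⟨N2, hN2⟩ := h2
      exact ⟨max N1 N2, fun i hi => ⟨hN1 i ((le_max_left _ _).trans hi),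
        hN2 i ((le_max_right _ _).trans hi)⟩⟩
    choose N hN using hN
    refine ⟨fun n => g (φ n), N, hg.comp hφ, fun q => ?_⟩
    by_cases hq : q.lev = δ
    · by_cases hqx : q.br = x
      · exact Eventually.of_forall fun n i hi => (hN n i hi).2 q hq hqx
      · have h1 := hx q.br hqx
        have h2 := hkφ.eventually_gt_atTop 0
        filter_upwards [h1, h2] with n hn1 hn2 i hi
        rintro ⟨m, hm⟩
        apply hn1
        refine ⟨m, ?_⟩
        have h3 := (hN n i hi).1 (by omega)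
        apply (block_unique Λ hδS (v := q.seq m) ?_ ?_ ?_ ?_)
        · have := q.le_blk (code q.br m)
          rw [hq] at this
          exact this
        · have := q.blk_lt (code q.br m)
          rw [hq] at this
          exact this
        · rw [hm]; exact h3.le
        · rw [hm]
          refine ((d (g (φ n))).seq_lt_lev i).trans_le ?_
          have := hK1 (φ n)
          rwa [show K (φ n) - 1 + 1 = K (φ n) by omega]
    · obtain ⟨n0, hn0⟩ := exists_bound_of_lt Λ hδS q hq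
      filter_upwards [hkφ.eventually_ge_atTop (n0 + 1)] with n hn i hi
      rintro ⟨m, hm⟩
      have h3 := (hN n i hi).1 (by omega)
      have h4 := hn0 m (by rw [hm]; exact ((d (g (φ n))).seq_lt_lev i).trans (hlt (φ n)))
      rw [hm] at h4
      have h5 : Λ.e δ n0 ≤ Λ.e δ (K (φ n) - 1) := hmono.monotone (by omega)
      exact absurd (h3.trans h4) (not_lt.2 h5)
  · -- constant level
    have hδS : δ ∈ Scof α := hδ 0 ▸ (d (g 0)).lev_mem
    have hmono := Λ.e_mono δ hδS
    have hinj : Function.Injective (fun n => (d (g n)).br) := by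
      intro a b hab
      exact hg.injective (hd (eq_of_br ((hδ a).trans (hδ b).symm) hab))
    obtain ⟨x, φ, L, hφ, -, hx1, hx2⟩ := subseq_branches _ hinj
    refine ⟨fun n => g (φ n), fun n => max (L n + 1) n, hg.comp hφ, fun q => ?_⟩
    have hval : ∀ n i, Λ.e δ i ≤ (d (g (φ n))).seq i := by
      intro n i
      have := (d (g (φ n))).e_le_seq i
      rwa [hδ (φ n)] at this
    by_cases hq : q.lev = δ
    · have hcore : ∀ n i, (max (L n + 1) n) ≤ i →
          code (d (g (φ n))).br i ∉ range (code q.br) → (d (g (φ n))).seq i ∉ range q.seq := by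
        intro n i hi hnot
        rintro ⟨m, hm⟩
        apply hnot
        exact ⟨m, (code_eq_of_seq_eq (((hδ (φ n))).trans hq.symm) hm.symm).symm⟩
      by_cases hqx : q.br = x
      · refine Eventually.of_forall fun n i hi => hcore n i hi ?_
        rw [hqx]
        exact hx1 n i (by have := (le_max_left (L n + 1) n).trans hi; omega)
      · filter_upwards [hx2 q.br hqx] with n hn i hi
        exact hcore n i hi (hn i (by have := (le_max_left (L n + 1) n).trans hi; omega))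
    · obtain ⟨n0, hn0⟩ := exists_bound_of_lt Λ hδS q hq
      filter_upwards [eventually_ge_atTop n0] with n hn i hi
      rintro ⟨m, hm⟩
      have h4 := hn0 m (by
        rw [hm]
        have := (d (g (φ n))).seq_lt_lev i
        rwa [hδ (φ n)] at this)
      rw [hm] at h4
      have h5 : Λ.e δ n0 ≤ Λ.e δ i := hmono.monotone (hn.trans ((le_max_right _ _).trans hi))
      exact absurd (h5.trans (hval n i)) (not_le.2 h4)

/-- limit points of an unbounded set form a club -/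
lemma isClub_lim [NoMaxOrder α] [Nonempty α] (hcof : ℵ₀ < Order.cof α) {X : Set α}
    (hX : IsCofinal X) : IsClub {γ : α | ∀ b < γ, ∃ x ∈ X, b ≤ x ∧ x < γ} := by
  refine ⟨?_, ?_⟩
  · intro T hT hT0 _ γ hγ b hb
    obtain ⟨t, ht, hbt⟩ := (lt_isLUB_iff hγ).1 hb
    obtain ⟨x, hx, h1, h2⟩ := hT ht b hbt
    exact ⟨x, hx, h1, h2.trans_le (hγ.1 ht)⟩
  · intro a
    have key : ∀ a : α, ∃ c ∈ X, a < c := by
      intro a
      obtain ⟨a', ha'⟩ := exists_gt a
      obtain ⟨c, hc, hac⟩ := hX a'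
      exact ⟨c, hc, ha'.trans_le hac⟩
    choose nx hnx1 hnx2 using key
    let f : ℕ → α := fun n => Nat.rec (nx a) (fun _ x => nx x) n
    have hf : StrictMono f := strictMono_nat_of_lt_succ fun n => hnx2 (f n)
    have hfC : ∀ n, f n ∈ X := by
      intro n
      cases n with
      | zero => exact hnx1 _
      | succ n => exact hnx1 _
    have hb : BddAbove (range f) := by
      refine .of_not_isCofinal fun hg ↦ (cof_le hg).not_gt (hcof.trans_le' ?_)
      simpa using mk_range_le_lift (f := f)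
    obtain ⟨δ, hδ⟩ := exists_isLUB_of_bdd hb
    refine ⟨δ, fun b hb => ?_, ?_⟩
    · obtain ⟨_, ⟨n, rfl⟩, hn⟩ := (lt_isLUB_iff hδ).1 hb
      exact ⟨f n, hfC n, hn.le, (hf (Nat.lt_succ_self n)).trans_le (hδ.1 ⟨n + 1, rfl⟩)⟩
    · exact (hnx2 a).le.trans (hδ.1 ⟨0, rfl⟩)

/-- a ladder system guesses clubs -/
def Guesses (e : α → ℕ → α) : Prop :=
  ∀ D : Set α, IsClub D → ∃ δ ∈ Scof α, ∀ᶠ k in atTop, e δ k ∈ D

/-- **The hitting property.** -/
theorem hitting [NoMaxOrder α] [Nonempty α] (hcof : ℵ₀ < Order.cof α) (Λ : Data α)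
    (hΛ : Guesses Λ.e) (X : ℕ → Set α) (hanti : Antitone X) (hX : ∀ n, IsCofinal (X n)) :
    ∃ p : Idx Λ, ∀ n, ∃ i, p.seq i ∈ X n := by
  obtain ⟨δ, hδ, hev⟩ := hΛ (⋂ n, {γ : α | ∀ b < γ, ∃ x ∈ X n, b ≤ x ∧ x < γ})
    (IsClub.iInter_of_countable hcof.ne' fun n => isClub_lim hcof (hX n))
  obtain ⟨k0, hk0⟩ := eventually_atTop.1 hev
  have hmono := Λ.e_mono δ hδ
  have hB : ∀ k, ∃ v, (Λ.e δ k ≤ v ∧ v < Λ.e δ (k + 1)) ∧ (k0 ≤ k → v ∈ X k) := by
    intro k
    by_cases hk : k0 ≤ k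
    · have h1 := mem_iInter.1 (hk0 (k + 1) (by omega)) k
      obtain ⟨x, hx, h2, h3⟩ := h1 (Λ.e δ k) (hmono (Nat.lt_succ_self k))
      exact ⟨x, ⟨h2, h3⟩, fun _ => hx⟩
    · exact ⟨Λ.e δ k, ⟨le_rfl, hmono (Nat.lt_succ_self k)⟩, fun h => absurd h hk⟩
  choose B hB1 hB2 using hB
  let p : Idx Λ := ⟨(δ, B), hδ, hB1⟩
  refine ⟨p, fun n => ⟨max n k0, ?_⟩⟩
  have h1 : max n k0 ≤ code p.br (max n k0) := le_code _ _
  have h2 := hB2 (code p.br (max n k0)) ((le_max_right _ _).trans h1)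
  exact hanti ((le_max_left _ _).trans h1) h2

end

end Pool.Agent.W_MP_88e59f_gt
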