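import Mathlib

/-!
# Club guessing at countable cofinality

For a well-order `α` without maximum whose cofinality exceeds `ℵ₁` we prove Shelah's club guessing
principle for points of countable cofinality.
-/

set_option autoImplicit false
set_option linter.unusedSectionVars false

open Cardinal Order Set Filter

namespace Pool.Agent.W_MP_88e59f_gt

section

variable {α : Type} [LinearOrder α] [WellFoundedLT α]

/-- points of countable cofinality -/
def Scof (α : Type) [LinearOrder α] : Set α :=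
  {δ | ∃ f : ℕ → α, StrictMono f ∧ IsLUB (range f) δ}

/-- `δ` is a limit of points of `C`. -/
def LimOf (C : Set α) (δ : α) : Prop := ∀ b < δ, ∃ c ∈ C, b < c ∧ c < δ

/-- the greatest element of `C` that is `≤ b` (junk if there is none) -/
noncomputable def gl (C : Set α) (b : α) : α := by
  classical
  exact if h : ∃ x, IsGreatest (C ∩ Iic b) x then h.choose else b

/-- In a well-order, a nonempty bounded set has a least upper bound. -/
lemma exists_isLUB_of_bdd {s : Set α} (hb : BddAbove s) : ∃ x, IsLUB s x := by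
  obtain ⟨m, hm, hmin⟩ := WellFounded.has_min (wellFounded_lt (α := α)) (upperBounds s) hb
  refine ⟨m, hm, fun y hy => ?_⟩
  exact not_lt.1 (hmin y hy)

lemma exists_isGreatest {C : Set α} (hC : IsClub C) {b : α} (h : (C ∩ Iic b).Nonempty) :
    ∃ x, IsGreatest (C ∩ Iic b) x := by
  obtain ⟨x, hx⟩ := exists_isLUB_of_bdd (s := C ∩ Iic b) ⟨b, fun y hy => hy.2⟩
  refine ⟨x, ⟨?_, ?_⟩, hx.1⟩
  · exact hC.isLUB_mem (t := C ∩ Iic b) inter_subset_left h hx
  · exact hx.2 (fun y hy => hy.2)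

lemma gl_spec {C : Set α} (hC : IsClub C) {b : α} (h : (C ∩ Iic b).Nonempty) :
    IsGreatest (C ∩ Iic b) (gl C b) := by
  have hx := exists_isGreatest hC h
  unfold gl
  rw [dif_pos hx]
  exact hx.choose_spec

lemma gl_mem {C : Set α} (hC : IsClub C) {b : α} (h : (C ∩ Iic b).Nonempty) : gl C b ∈ C :=
  (gl_spec hC h).1.1

lemma gl_le {C : Set α} (hC : IsClub C) {b : α} (h : (C ∩ Iic b).Nonempty) : gl C b ≤ b :=
  (gl_spec hC h).1.2

lemma le_gl {C : Set α} (hC : IsClub C) {b c : α} (hc : c ∈ C) (hcb : c ≤ b) : c ≤ gl C b :=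
  (gl_spec hC ⟨c, hc, hcb⟩).2 ⟨hc, hcb⟩

lemma gl_anti {C C' : Set α} (hC : IsClub C) (hC' : IsClub C') (hsub : C ⊆ C') {b : α}
    (h : (C ∩ Iic b).Nonempty) : gl C b ≤ gl C' b :=
  le_gl hC' (hsub (gl_mem hC h)) (gl_le hC h)

lemma gl_mono {C : Set α} (hC : IsClub C) {b b' : α} (hbb : b ≤ b')
    (h : (C ∩ Iic b).Nonempty) : gl C b ≤ gl C b' :=
  le_gl hC (gl_mem hC h) ((gl_le hC h).trans hbb)

/-- An antitone map from a preorder to a well-order is eventually constant. -/
lemma antitone_stab {ι : Type} [LinearOrder ι] [Nonempty ι] (g : ι → α) (hg : Antitone g) :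
    ∃ i, ∀ j, i ≤ j → g j = g i := by
  obtain ⟨m, ⟨i, rfl⟩, hmin⟩ :=
    WellFounded.has_min (wellFounded_lt (α := α)) (range g) (range_nonempty g)
  refine ⟨i, fun j hj => le_antisymm (hg hj) (not_lt.1 (hmin _ ⟨j, rfl⟩))⟩

/-- the recursion step of the club guessing argument -/
noncomputable def step (D : ∀ C : Set α, IsClub C → Set α) (C : Set α) : Set α := by
  classical
  exact if h : IsClub C then C ∩ D C h else univ

/-- the decreasing sequence of clubs -/
noncomputable def seqC {ι : Type} [LinearOrder ι] [WellFoundedLT ι]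
    (D : ∀ C : Set α, IsClub C → Set α) : ι → Set α :=
  (wellFounded_lt (α := ι)).fix (fun i ih => ⋂ j : {j : ι // j < i}, step D (ih j.1 j.2))

lemma seqC_eq {ι : Type} [LinearOrder ι] [WellFoundedLT ι]
    (D : ∀ C : Set α, IsClub C → Set α) (i : ι) :
    seqC D i = ⋂ j : {j : ι // j < i}, step D (seqC D j.1) := by
  unfold seqC
  rw [WellFounded.fix_eq]

lemma countable_of_Iio {ι : Type} [LinearOrder ι] [WellFoundedLT ι]
    (h : ∀ i : ι, (Iio i).Countable) (i : ι) : Countable {j : ι // j < i} :=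
  (h i).to_subtype

lemma seqC_isClub {ι : Type} [LinearOrder ι] [WellFoundedLT ι]
    (h : ∀ i : ι, (Iio i).Countable) (hcof : ℵ₀ < Order.cof α)
    (D : ∀ C : Set α, IsClub C → Set α) (hD : ∀ C hC, IsClub (D C hC)) (i : ι) :
    IsClub (seqC D i) := by
  induction i using WellFoundedLT.induction with
  | _ i ih =>
    rw [seqC_eq]
    have := countable_of_Iio h i
    refine IsClub.iInter_of_countable hcof.ne' fun j => ?_
    unfold step
    rw [dif_pos (ih j.1 j.2)]
    exact (ih j.1 j.2).inter hcof.ne' (hD _ _)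

lemma seqC_subset_step {ι : Type} [LinearOrder ι] [WellFoundedLT ι]
    (D : ∀ C : Set α, IsClub C → Set α) {i j : ι} (hij : j < i) :
    seqC D i ⊆ step D (seqC D j) := by
  rw [seqC_eq]
  exact iInter_subset_of_subset ⟨j, hij⟩ subset_rfl

lemma seqC_anti {ι : Type} [LinearOrder ι] [WellFoundedLT ι]
    (D : ∀ C : Set α, IsClub C → Set α) : Antitone (seqC D : ι → Set α) := by
  intro j i hij
  rw [seqC_eq, seqC_eq]
  refine subset_iInter fun k => ?_
  exact iInter_subset_of_subset ⟨k.1, k.2.trans_le hij⟩ subset_rfl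

/-- every club (in cofinality `> ℵ₀`) has limit points of countable cofinality -/
lemma exists_lim_of_club [NoMaxOrder α] [Nonempty α] (hcof : ℵ₀ < Order.cof α) {C : Set α}
    (hC : IsCofinal C) : ∃ δ ∈ Scof α, LimOf C δ := by
  have key : ∀ a : α, ∃ c ∈ C, a < c := by
    intro a
    obtain ⟨a', ha'⟩ := exists_gt a
    obtain ⟨c, hc, hac⟩ := hC a'
    exact ⟨c, hc, ha'.trans_le hac⟩
  choose nx hnx1 hnx2 using key
  let f : ℕ → α := fun n => Nat.rec (nx (Classical.arbitrary α)) (fun _ x => nx x) n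
  have hf : StrictMono f := strictMono_nat_of_lt_succ fun n => hnx2 (f n)
  have hfC : ∀ n, f n ∈ C := by
    intro n
    cases n with
    | zero => exact hnx1 _
    | succ n => exact hnx1 _
  have hb : BddAbove (range f) := by
    refine .of_not_isCofinal fun hg ↦ (cof_le hg).not_gt (hcof.trans_le' ?_)
    simpa using mk_range_le_lift (f := f)
  obtain ⟨δ, hδ⟩ := exists_isLUB_of_bdd hb
  refine ⟨δ, ⟨f, hf, hδ⟩, fun b hb => ?_⟩
  obtain ⟨_, ⟨n, rfl⟩, hn⟩ := (lt_isLUB_iff hδ).1 hb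
  exact ⟨f n, hfC n, hn, (hf (Nat.lt_succ_self n)).trans_le (hδ.1 ⟨n + 1, rfl⟩)⟩

/-- Main step: some club `C` makes the glued ladders guess clubs. -/
lemma exists_guessing_club [NoMaxOrder α] [Nonempty α] (hcof : ℵ_ 1 < Order.cof α)
    (f : α → ℕ → α) (hf : ∀ δ ∈ Scof α, StrictMono (f δ) ∧ IsLUB (range (f δ)) δ) :
    ∃ C : Set α, IsClub C ∧ ∀ D : Set α, IsClub D → ∃ δ ∈ Scof α, LimOf C δ ∧
      ∀ᶠ k in atTop, gl C (f δ k) ∈ D := by
  by_contra hcon
  push Not at hcon
  have hcof0 : ℵ₀ < Order.cof α := (aleph0_lt_aleph_one).trans hcof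
  choose D hDclub hD using hcon
  -- index type of order type `ω₁`
  let ι : Type := (ℵ_ 1 : Cardinal.{0}).ord.ToType
  have hιcard : #ι = ℵ_ 1 := by simp [ι]
  have hιcount : ∀ i : ι, (Iio i).Countable := by
    intro i
    have h1 : #(Iio i) < #ι := by
      apply mk_Iio_lt
      simp [ι]
    rw [hιcard] at h1
    rw [← le_aleph0_iff_set_countable]
    have h2 : #(Iio i) < succ ℵ₀ := by
      rw [succ_aleph0]
      exact h1
    exact lt_succ_iff.1 h2
  have : Nonempty ι := by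
    rw [← mk_ne_zero_iff, hιcard]
    exact (aleph_pos 1).ne'
  have hιcof : Order.cof ι = ℵ_ 1 := by
    simp only [ι, Ordinal.cof_toType]
    exact isRegular_aleph_one.cof_ord
  have : NoMaxOrder ι := by
    rw [← noTopOrder_iff_noMaxOrder, ← one_lt_cof_iff, hιcof]
    exact one_lt_aleph0.trans aleph0_lt_aleph_one
  have hCclub : ∀ i : ι, IsClub (seqC D i) := seqC_isClub hιcount hcof0 D hDclub
  have hCall : IsClub (⋂ i : ι, seqC D i) := by
    refine IsClub.iInter hcof0.ne' ?_ hCclub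
    simpa [hιcard] using hcof
  obtain ⟨δ, hδS, hδlim⟩ := exists_lim_of_club hcof0 hCall.isCofinal
  have hlim : ∀ i : ι, LimOf (seqC D i) δ := by
    intro i b hb
    obtain ⟨c, hc, h1, h2⟩ := hδlim b hb
    exact ⟨c, mem_iInter.1 hc i, h1, h2⟩
  obtain ⟨hfm, hfl⟩ := hf δ hδS
  -- a starting index
  obtain ⟨c0, hc0, -, hc0δ⟩ := hδlim (f δ 0) (lt_of_lt_of_le (hfm Nat.zero_lt_one) (hfl.1 ⟨1, rfl⟩))
  obtain ⟨_, ⟨k0, rfl⟩, hk0⟩ := (lt_isLUB_iff hfl).1 hc0δ
  have hne : ∀ i : ι, ∀ k, k0 ≤ k → (seqC D i ∩ Iic (f δ k)).Nonempty := by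
    intro i k hk
    exact ⟨c0, mem_iInter.1 hc0 i, hk0.le.trans (hfm.monotone hk)⟩
  have hstab : ∀ k, ∃ i : ι, k0 ≤ k → ∀ j, i ≤ j → gl (seqC D j) (f δ k) = gl (seqC D i) (f δ k) := by
    intro k
    by_cases hk : k0 ≤ k
    · obtain ⟨i, hi⟩ := antitone_stab (fun i : ι => gl (seqC D i) (f δ k))
        (fun i j hij => gl_anti (hCclub j) (hCclub i) (seqC_anti D hij) (hne j k hk))
      exact ⟨i, fun _ => hi⟩
    · exact ⟨Classical.arbitrary ι, fun h => absurd h hk⟩
  choose ik hik using hstab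
  have hb : BddAbove (range ik) := by
    refine .of_not_isCofinal fun hg ↦ (cof_le hg).not_gt ?_
    rw [hιcof]
    refine lt_of_le_of_lt ?_ aleph0_lt_aleph_one
    simpa using mk_range_le_lift (f := ik)
  obtain ⟨i, hi⟩ := hb
  obtain ⟨i', hii'⟩ := exists_gt i
  have hfin : ∀ k, k0 ≤ k → gl (seqC D i) (f δ k) ∈ D (seqC D i) (hCclub i) := by
    intro k hk
    have e1 := hik k hk i (hi ⟨k, rfl⟩)
    have e2 := hik k hk i' ((hi ⟨k, rfl⟩).trans hii'.le)
    rw [e1, ← e2]
    have hmem := gl_mem (hCclub i') (hne i' k hk)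
    have := seqC_subset_step D hii' hmem
    unfold step at this
    rw [dif_pos (hCclub i)] at this
    exact this.2
  have hnot := hD (seqC D i) (hCclub i) δ hδS (hlim i)
  exact hnot (eventually_atTop.2 ⟨k0, fun k hk h => h (hfin k hk)⟩)

/-- **Club guessing** (Shelah) for points of countable cofinality. -/
theorem exists_guess [NoMaxOrder α] [Nonempty α] (hcof : ℵ_ 1 < Order.cof α) :
    ∃ e : α → ℕ → α, (∀ δ ∈ Scof α, StrictMono (e δ) ∧ IsLUB (range (e δ)) δ) ∧
      ∀ D : Set α, IsClub D → ∃ δ ∈ Scof α, ∀ᶠ k in atTop, e δ k ∈ D := by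
  have hex : ∀ δ : α, ∃ f : ℕ → α, δ ∈ Scof α → StrictMono f ∧ IsLUB (range f) δ := by
    intro δ
    by_cases h : δ ∈ Scof α
    · obtain ⟨f, hf⟩ := h
      exact ⟨f, fun _ => hf⟩
    · exact ⟨fun _ => δ, fun h' => absurd h' h⟩
  choose f hf using hex
  obtain ⟨C, hC, hguess⟩ := exists_guessing_club hcof f hf
  have hsub : ∀ δ : α, ∃ φ : ℕ → ℕ, δ ∈ Scof α → LimOf C δ →
      StrictMono φ ∧ StrictMono (fun k => gl C (f δ (φ k))) ∧
        IsLUB (range (fun k => gl C (f δ (φ k)))) δ := by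
    intro δ
    by_cases h : δ ∈ Scof α ∧ LimOf C δ
    · obtain ⟨hfm, hfl⟩ := hf δ h.1
      have hlim := h.2
      obtain ⟨c0, hc0, -, hc0δ⟩ :=
        hlim (f δ 0) (lt_of_lt_of_le (hfm Nat.zero_lt_one) (hfl.1 ⟨1, rfl⟩))
      obtain ⟨_, ⟨k0, rfl⟩, hk0⟩ := (lt_isLUB_iff hfl).1 hc0δ
      have hne : ∀ k, k0 ≤ k → (C ∩ Iic (f δ k)).Nonempty := fun k hk =>
        ⟨c0, hc0, hk0.le.trans (hfm.monotone hk)⟩
      have hlt : ∀ k, f δ k < δ := fun k =>
        lt_of_lt_of_le (hfm (Nat.lt_succ_self k)) (hfl.1 ⟨k + 1, rfl⟩)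
      -- for every `b < δ` eventually `b < gl C (f δ k)`
      have hbig : ∀ b < δ, ∃ K, k0 ≤ K ∧ ∀ k, K ≤ k → b < gl C (f δ k) := by
        intro b hb
        obtain ⟨c, hc, hbc, hcδ⟩ := hlim b hb
        obtain ⟨_, ⟨k1, rfl⟩, hk1⟩ := (lt_isLUB_iff hfl).1 hcδ
        refine ⟨max k0 k1, le_max_left _ _, fun k hk => hbc.trans_le ?_⟩
        exact le_gl hC hc (hk1.le.trans (hfm.monotone ((le_max_right _ _).trans hk)))
      have hnext : ∀ k, ∃ m, k < m ∧ k0 ≤ m ∧ gl C (f δ k) < gl C (f δ m) := by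
        intro k
        have hg : gl C (f δ k) < δ ∨ ¬ gl C (f δ k) < δ := em _
        rcases hg with hg | hg
        · obtain ⟨K, hK0, hK⟩ := hbig _ hg
          exact ⟨max K (k + 1), lt_of_lt_of_le (Nat.lt_succ_self k) (le_max_right _ _),
            hK0.trans (le_max_left _ _), hK _ (le_max_left _ _)⟩
        · exfalso
          apply hg
          by_cases hk : (C ∩ Iic (f δ k)).Nonempty
          · exact (gl_le hC hk).trans_lt (hlt k)
          · unfold gl
            rw [dif_neg]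
            · exact hlt k
            · rintro ⟨x, hx⟩
              exact hk ⟨x, hx.1⟩
      choose nx hnx1 hnx2 hnx3 using hnext
      let φ : ℕ → ℕ := fun n => Nat.rec k0 (fun _ x => nx x) n
      have hφ : StrictMono φ := strictMono_nat_of_lt_succ fun n => hnx1 (φ n)
      have hφk : ∀ n, k0 ≤ φ n := by
        intro n
        cases n with
        | zero => exact le_rfl
        | succ n => exact hnx2 _
      refine ⟨φ, fun _ _ => ⟨hφ, strictMono_nat_of_lt_succ fun n => hnx3 (φ n), ?_, ?_⟩⟩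
      · rintro _ ⟨n, rfl⟩
        exact ((gl_le hC (hne _ (hφk n))).trans (hlt _).le)
      · intro b hb
        by_contra hbδ
        obtain ⟨K, -, hK⟩ := hbig b (not_le.1 hbδ)
        have h1 : gl C (f δ (φ K)) ≤ b := hb ⟨K, rfl⟩
        exact absurd (hK (φ K) (hφ.id_le K)) (not_lt.2 h1)
    · exact ⟨id, fun h1 h2 => absurd ⟨h1, h2⟩ h⟩
  choose φ hφ using hsub
  classical
  refine ⟨fun δ k => if LimOf C δ then gl C (f δ (φ δ k)) else f δ k, ?_, ?_⟩
  · intro δ hδ
    by_cases h : LimOf C δ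
    · simp only [h, if_true]
      exact (hφ δ hδ h).2
    · simp only [h, if_false]
      exact hf δ hδ
  · intro D hD
    obtain ⟨δ, hδ, hlim, hev⟩ := hguess D hD
    refine ⟨δ, hδ, ?_⟩
    simp only [hlim, if_true]
    exact (hφ δ hδ hlim).1.tendsto_atTop.eventually hev

end

end Pool.Agent.W_MP_88e59f_gt
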