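import Pool.Agent.W_MP_88e59f_gt.Family
import Pool.Agent.W_MP_88e59f_gt.Defs

/-!
# The space
-/

set_option autoImplicit false
set_option linter.unusedSectionVars false

open Cardinal Order Set Filter Topology

namespace Pool.Agent.W_MP_88e59f_gt

variable {α : Type} [LinearOrder α] [WellFoundedLT α]

/-- The underlying set of the Psi-like space. -/
inductive Psi (Λ : Data α) : Type
  | pt : α → Psi Λ
  | lim : Idx Λ → Psi Λ

namespace Psi

variable {Λ : Data α}

instance : TopologicalSpace (Psi Λ) where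
  IsOpen V := ∀ p, Psi.lim p ∈ V → ∀ᶠ n in atTop, Psi.pt (p.seq n) ∈ V
  isOpen_univ := fun _ _ => Eventually.of_forall fun _ => trivial
  isOpen_inter := fun _ _ hs ht p hp => (hs p hp.1).and (ht p hp.2)
  isOpen_sUnion := fun _ hs p ⟨V, hV, hp⟩ => (hs V hV p hp).mono fun _ hn => ⟨V, hV, hn⟩

lemma isOpen_iff {V : Set (Psi Λ)} :
    IsOpen V ↔ ∀ p, Psi.lim p ∈ V → ∀ᶠ n in atTop, Psi.pt (p.seq n) ∈ V := Iff.rfl

/-- subsets of the set of isolated points are open -/
lemma isOpen_of_no_lim {V : Set (Psi Λ)} (h : ∀ p, Psi.lim p ∉ V) : IsOpen V :=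
  isOpen_iff.2 fun p hp => absurd hp (h p)

lemma isOpen_singleton_pt (a : α) : IsOpen ({Psi.pt a} : Set (Psi Λ)) :=
  isOpen_of_no_lim fun p hp => by simp at hp

/-- basic neighbourhood of `lim p` -/
def nb (p : Idx Λ) (N : ℕ) : Set (Psi Λ) := {z | z = Psi.lim p ∨ ∃ n, N ≤ n ∧ z = Psi.pt (p.seq n)}

lemma mem_nb_self (p : Idx Λ) (N : ℕ) : Psi.lim p ∈ nb p N := Or.inl rfl

lemma lim_mem_nb {p q : Idx Λ} {N : ℕ} (h : Psi.lim q ∈ nb p N) : q = p := by
  rcases h with h | ⟨n, -, h⟩
  · exact Psi.lim.inj h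
  · cases h

lemma pt_mem_nb {p : Idx Λ} {N : ℕ} {a : α} (h : Psi.pt a ∈ nb p N) : ∃ n, N ≤ n ∧ p.seq n = a := by
  rcases h with h | ⟨n, hn, h⟩
  · cases h
  · exact ⟨n, hn, (Psi.pt.inj h).symm⟩

lemma isOpen_nb (p : Idx Λ) (N : ℕ) : IsOpen (nb p N) := by
  refine isOpen_iff.2 fun q hq => ?_
  rw [lim_mem_nb hq]
  filter_upwards [eventually_ge_atTop N] with n hn
  exact Or.inr ⟨n, hn, rfl⟩

lemma isCompact_nb (p : Idx Λ) (N : ℕ) : IsCompact (nb p N) := by
  have h1 : Tendsto (fun n => (Psi.pt (p.seq (N + n)) : Psi Λ)) atTop (𝓝 (Psi.lim p)) := by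
    refine tendsto_nhds.2 fun V hV hp => ?_
    have h2 := isOpen_iff.1 hV p hp
    obtain ⟨M, hM⟩ := eventually_atTop.1 h2
    filter_upwards [eventually_ge_atTop M] with n hn
    exact hM (N + n) (by omega)
  have h2 := h1.isCompact_insert_range
  convert h2 using 1
  ext z
  constructor
  · rintro (h | ⟨n, hn, h⟩)
    · exact Or.inl h
    · exact Or.inr ⟨n - N, by simp only; rw [h, show N + (n - N) = n by omega]⟩
  · rintro (h | ⟨n, rfl⟩)
    · exact Or.inl h
    · exact Or.inr ⟨N + n, Nat.le_add_right _ _, rfl⟩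

instance : T2Space (Psi Λ) := by
  refine ⟨fun x y hxy => ?_⟩
  cases x with
  | pt a =>
    cases y with
    | pt b =>
      refine ⟨_, _, isOpen_singleton_pt a, isOpen_singleton_pt b, rfl, rfl, ?_⟩
      simpa using hxy
    | lim q =>
      refine ⟨{Psi.pt a}, {Psi.pt a}ᶜ, isOpen_singleton_pt a, ?_, rfl, hxy.symm, ?_⟩
      · refine isOpen_iff.2 fun p _ => ?_
        by_cases h : ∃ n0, p.seq n0 = a
        · obtain ⟨n0, h0⟩ := h
          filter_upwards [eventually_gt_atTop n0] with n hn hmem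
          have h1 : p.seq n = a := Psi.pt.inj hmem
          exact absurd (p.seq_strictMono.injective (h1.trans h0.symm)) hn.ne'
        · push Not at h
          exact Eventually.of_forall fun n hmem => h n (Psi.pt.inj hmem)
      · exact disjoint_compl_right
  | lim p =>
    cases y with
    | pt a =>
      refine ⟨{Psi.pt a}ᶜ, {Psi.pt a}, ?_, isOpen_singleton_pt a, hxy, rfl, ?_⟩
      · refine isOpen_iff.2 fun p _ => ?_
        by_cases h : ∃ n0, p.seq n0 = a
        · obtain ⟨n0, h0⟩ := h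
          filter_upwards [eventually_gt_atTop n0] with n hn hmem
          have h1 : p.seq n = a := Psi.pt.inj hmem
          exact absurd (p.seq_strictMono.injective (h1.trans h0.symm)) hn.ne'
        · push Not at h
          exact Eventually.of_forall fun n hmem => h n (Psi.pt.inj hmem)
      · exact disjoint_compl_left
    | lim q =>
      have hpq : p ≠ q := fun h => hxy (by rw [h])
      obtain ⟨N, hN⟩ := Idx.ad_tail hpq
      refine ⟨nb p N, nb q 0, isOpen_nb _ _, isOpen_nb _ _, mem_nb_self _ _, mem_nb_self _ _, ?_⟩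
      rw [Set.disjoint_left]
      intro z hz1 hz2
      cases z with
      | pt a =>
        obtain ⟨n, hn, rfl⟩ := pt_mem_nb hz1
        obtain ⟨m, -, hm⟩ := pt_mem_nb hz2
        exact hN n hn ⟨m, hm⟩
      | lim r =>
        exact hpq ((lim_mem_nb hz1).symm.trans (lim_mem_nb hz2))

instance : WeaklyLocallyCompactSpace (Psi Λ) := by
  refine ⟨fun x => ?_⟩
  cases x with
  | pt a => exact ⟨{Psi.pt a}, isCompact_singleton, (isOpen_singleton_pt a).mem_nhds rfl⟩
  | lim p => exact ⟨nb p 0, isCompact_nb p 0, (isOpen_nb p 0).mem_nhds (mem_nb_self p 0)⟩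

/-- structure of compact sets -/
lemma compact_cover {K : Set (Psi Λ)} (hK : IsCompact K) :
    ∃ (s : Set α) (t : Set (Idx Λ)), s.Finite ∧ t.Finite ∧ (∀ p, Psi.lim p ∈ K → p ∈ t) ∧
      ∀ a, Psi.pt a ∈ K → a ∈ s ∨ ∃ p ∈ t, a ∈ range p.seq := by
  classical
  let V : Psi Λ → Set (Psi Λ) := fun z => match z with
    | Psi.pt a => {Psi.pt a}
    | Psi.lim p => nb p 0
  have hV : ∀ z, IsOpen (V z) ∧ z ∈ V z := by
    intro z
    cases z with
    | pt a => exact ⟨isOpen_singleton_pt a, rfl⟩
    | lim p => exact ⟨isOpen_nb p 0, mem_nb_self p 0⟩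
  obtain ⟨t, ht⟩ := hK.elim_finite_subcover V (fun z => (hV z).1)
    (fun z _ => mem_iUnion.2 ⟨z, (hV z).2⟩)
  refine ⟨{a | Psi.pt a ∈ t}, {p | Psi.lim p ∈ t}, ?_, ?_, ?_, ?_⟩
  · exact t.finite_toSet.preimage (fun a _ b _ h => Psi.pt.inj h)
  · exact t.finite_toSet.preimage (fun a _ b _ h => Psi.lim.inj h)
  · intro p hp
    obtain ⟨z, hz, hpz⟩ := mem_iUnion₂.1 (ht hp)
    cases z with
    | pt a => cases hpz
    | lim q =>
      rw [lim_mem_nb hpz]
      exact hz
  · intro a ha
    obtain ⟨z, hz, haz⟩ := mem_iUnion₂.1 (ht ha)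
    cases z with
    | pt b =>
      left
      have : a = b := Psi.pt.inj haz
      rw [this]
      exact hz
    | lim q =>
      right
      obtain ⟨n, -, hn⟩ := pt_mem_nb haz
      exact ⟨q, hz, n, hn⟩

/-- compact sets contain a bounded set of isolated points -/
lemma compact_bdd [Nonempty α] {K : Set (Psi Λ)} (hK : IsCompact K) :
    ∃ b, ∀ a, Psi.pt a ∈ K → a ≤ b := by
  obtain ⟨s, t, hs, ht, -, h⟩ := compact_cover hK
  obtain ⟨b1, hb1⟩ := hs.bddAbove
  obtain ⟨b2, hb2⟩ := (ht.image Idx.lev).bddAbove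
  refine ⟨max b1 b2, fun a ha => ?_⟩
  rcases h a ha with h1 | ⟨p, hp, n, hn⟩
  · exact (hb1 h1).trans (le_max_left _ _)
  · rw [← hn]
    exact ((p.seq_lt_lev n).le.trans (hb2 ⟨p, hp, rfl⟩)).trans (le_max_right _ _)

end Psi

open Psi

variable {Λ : Data α}

/-- the compact space -/
abbrev Sp (Λ : Data α) : Type := OnePoint (Psi Λ)

lemma isOpen_pt (a : α) : IsOpen ({((Psi.pt a : Psi Λ) : Sp Λ)} : Set (Sp Λ)) := by
  have := (OnePoint.isOpen_image_coe (X := Psi Λ)).2 (isOpen_singleton_pt (Λ := Λ) a)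
  rwa [image_singleton] at this

lemma isOpen_coe_nb (p : Idx Λ) (N : ℕ) : IsOpen ((↑) '' nb p N : Set (Sp Λ)) :=
  OnePoint.isOpen_image_coe.2 (isOpen_nb p N)

theorem scattered_sp : Scattered (Sp Λ) := by
  intro S hS
  by_cases h1 : ∃ a : α, ((Psi.pt a : Psi Λ) : Sp Λ) ∈ S
  · obtain ⟨a, ha⟩ := h1
    refine ⟨_, ha, _, isOpen_pt a, ?_⟩
    exact inter_eq_left.2 (singleton_subset_iff.2 ha)
  · by_cases h2 : ∃ p : Idx Λ, ((Psi.lim p : Psi Λ) : Sp Λ) ∈ S
    · obtain ⟨p, hp⟩ := h2
      refine ⟨_, hp, _, isOpen_coe_nb p 0, ?_⟩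
      ext z
      constructor
      · rintro ⟨⟨w, hw, rfl⟩, hz⟩
        cases w with
        | pt a => exact absurd ⟨a, hz⟩ h1
        | lim q =>
          rw [lim_mem_nb hw]
          rfl
      · rintro rfl
        exact ⟨⟨_, mem_nb_self p 0, rfl⟩, hp⟩
    · obtain ⟨x, hx⟩ := hS
      have hall : ∀ z ∈ S, z = OnePoint.infty := by
        intro z hz
        induction z using OnePoint.rec with
        | infty => rfl
        | coe w =>
          cases w with
          | pt a => exact absurd ⟨a, hz⟩ h1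
          | lim q => exact absurd ⟨q, hz⟩ h2
      refine ⟨x, hx, univ, isOpen_univ, ?_⟩
      rw [univ_inter]
      ext z
      constructor
      · intro hz
        rw [mem_singleton_iff, hall z hz, hall x hx]
      · rintro rfl
        exact hx

/-- complements of basic compact sets are neighbourhoods of infinity -/
lemma compl_nb_mem_nhds (p : Idx Λ) (N : ℕ) :
    ((↑) '' nb p N : Set (Sp Λ))ᶜ ∈ 𝓝 (OnePoint.infty : Sp Λ) := by
  have h1 : IsOpen ((↑) '' nb p N : Set (Sp Λ))ᶜ :=
    OnePoint.isOpen_compl_image_coe.2 ⟨(isCompact_nb p N).isClosed, isCompact_nb p N⟩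
  exact h1.mem_nhds (by simp)

/-- every neighbourhood of infinity contains the complement of a compact closed set -/
lemma exists_compact_of_nhds {V : Set (Sp Λ)} (hV : V ∈ 𝓝 (OnePoint.infty : Sp Λ)) :
    ∃ K : Set (Psi Λ), IsCompact K ∧ ∀ z : Psi Λ, z ∉ K → (z : Sp Λ) ∈ V := by
  obtain ⟨W, hWV, hW, hinf⟩ := mem_nhds_iff.1 hV
  have h2 := (OnePoint.isOpen_iff_of_mem' hinf).1 hW
  refine ⟨_, h2.1, fun z hz => hWV ?_⟩
  by_contra h
  exact hz h

theorem not_bisequential [NoMaxOrder α] [Nonempty α] (hcof : ℵ₀ < Order.cof α)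
    (hΛ : Guesses Λ.e) : ¬ Bisequential (Sp Λ) := by
  intro hbi
  let F : Filter (Sp Λ) := map (fun a : α => ((Psi.pt a : Psi Λ) : Sp Λ)) atTop
  have hF : F.NeBot := inferInstance
  let 𝒰 : Ultrafilter (Sp Λ) := Ultrafilter.of F
  have h𝒰 : (𝒰 : Filter (Sp Λ)) ≤ F := Ultrafilter.of_le F
  have hconv : F ≤ 𝓝 (OnePoint.infty : Sp Λ) := by
    intro V hV
    obtain ⟨K, hK, hKV⟩ := exists_compact_of_nhds hV
    obtain ⟨b, hb⟩ := compact_bdd hK
    have : ∀ᶠ a in (atTop : Filter α), ((Psi.pt a : Psi Λ) : Sp Λ) ∈ V := by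
      filter_upwards [eventually_gt_atTop b] with a ha
      exact hKV _ fun h => absurd (hb a h) (not_le.2 ha)
    exact this
  obtain ⟨A, hA, hA𝒰, hAconv⟩ := hbi OnePoint.infty 𝒰 (h𝒰.trans hconv)
  let X : ℕ → Set α := fun n => {a | ((Psi.pt a : Psi Λ) : Sp Λ) ∈ A n}
  have hXcof : ∀ n, IsCofinal (X n) := by
    intro n b
    have h1 : {z : Sp Λ | ∃ a : α, b ≤ a ∧ ((Psi.pt a : Psi Λ) : Sp Λ) = z} ∈ 𝒰 := by
      apply h𝒰
      have : ∀ᶠ a in (atTop : Filter α), ((Psi.pt a : Psi Λ) : Sp Λ) ∈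
          {z : Sp Λ | ∃ a : α, b ≤ a ∧ ((Psi.pt a : Psi Λ) : Sp Λ) = z} := by
        filter_upwards [eventually_ge_atTop b] with a ha
        exact ⟨a, ha, rfl⟩
      exact this
    obtain ⟨z, hz1, a, hab, rfl⟩ := 𝒰.nonempty_of_mem (inter_mem (hA𝒰 n) h1)
    exact ⟨a, hz1, hab⟩
  obtain ⟨p, hp⟩ := hitting hcof Λ hΛ X (fun m n hmn a ha => hA hmn ha) hXcof
  obtain ⟨n, hn⟩ := hAconv _ (compl_nb_mem_nhds p 0)
  obtain ⟨i, hi⟩ := hp n
  exact hn hi ⟨_, Or.inr ⟨i, Nat.zero_le _, rfl⟩, rfl⟩

/-- Disjointified version of the key property. -/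
theorem key_wD' (hcof : ℵ₀ < Order.cof α) (Λ : Data α) (d : ℕ → Idx Λ)
    (hd : Function.Injective d) :
    ∃ (c : ℕ → Idx Λ) (N : ℕ → ℕ), Function.Injective c ∧ (∀ n, c n ∈ range d) ∧
      (∀ m n i j, N m ≤ i → N n ≤ j → (c m).seq i = (c n).seq j → m = n) ∧
      ∀ q : Idx Λ, (∀ n, q ≠ c n) → ∃ M, ∀ i, M ≤ i → ∀ n j, N n ≤ j → q.seq i ≠ (c n).seq j := by
  obtain ⟨φ, N, hφ, hN⟩ := key_wD hcof Λ d hd
  let c : ℕ → Idx Λ := fun n => d (φ n)
  have hc : Function.Injective c := hd.comp hφ.injective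
  -- tail avoiding all earlier members
  have h1 : ∀ n, ∃ M, ∀ i, M ≤ i → ∀ m < n, (c n).seq i ∉ range (c m).seq := by
    intro n
    have h2 : ∀ l, ∃ M, ∀ i, M ≤ i → ∀ m < l, m < n → (c n).seq i ∉ range (c m).seq := by
      intro l
      induction l with
      | zero => exact ⟨0, fun i _ m hm => absurd hm (Nat.not_lt_zero _)⟩
      | succ l ih =>
        obtain ⟨M, hM⟩ := ih
        by_cases hl : l < n
        · obtain ⟨M', hM'⟩ := Idx.ad_tail (p := c n) (q := c l) (fun h => hl.ne' (hc h))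
          refine ⟨max M M', fun i hi m hm hmn => ?_⟩
          rcases Nat.lt_succ_iff_lt_or_eq.1 hm with h | h
          · exact hM i ((le_max_left _ _).trans hi) m h hmn
          · rw [h]
            exact hM' i ((le_max_right _ _).trans hi)
        · refine ⟨M, fun i hi m hm hmn => hM i hi m (by omega) hmn⟩
    obtain ⟨M, hM⟩ := h2 n
    exact ⟨M, fun i hi m hm => hM i hi m hm hm⟩
  choose M hM using h1
  refine ⟨c, fun n => max (N n) (M n), hc, fun n => ⟨φ n, rfl⟩, ?_, ?_⟩
  · intro m n i j hi hj hij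
    rcases lt_trichotomy m n with h | h | h
    · exact absurd ⟨i, hij⟩ (hM n j ((le_max_right _ _).trans hj) m h)
    · exact h
    · exact absurd ⟨j, hij.symm⟩ (hM m i ((le_max_right _ _).trans hi) n h)
  · intro q hq
    obtain ⟨n0, hn0⟩ := eventually_atTop.1 (hN q)
    have h2 : ∀ l, ∃ M, ∀ i, M ≤ i → ∀ m < l, q.seq i ∉ range (c m).seq := by
      intro l
      induction l with
      | zero => exact ⟨0, fun i _ m hm => absurd hm (Nat.not_lt_zero _)⟩
      | succ l ih =>
        obtain ⟨M, hM⟩ := ih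
        obtain ⟨M', hM'⟩ := Idx.ad_tail (p := q) (q := c l) (hq l)
        refine ⟨max M M', fun i hi m hm => ?_⟩
        rcases Nat.lt_succ_iff_lt_or_eq.1 hm with h | h
        · exact hM i ((le_max_left _ _).trans hi) m h
        · rw [h]
          exact hM' i ((le_max_right _ _).trans hi)
    obtain ⟨M', hM'⟩ := h2 n0
    refine ⟨M', fun i hi n j hj heq => ?_⟩
    by_cases hn : n < n0
    · exact hM' i hi n hn ⟨j, heq.symm⟩
    · exact hn0 n (not_lt.1 hn) j ((le_max_left _ _).trans hj) ⟨i, heq⟩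

theorem hereditarilyWD_sp (hcof : ℵ₀ < Order.cof α) : HereditarilyWD (Sp Λ) := by
  intro Z D hDinf hDclosed hDdisc
  -- pointwise form of closed discreteness
  have hD : ∀ z : Z, ∃ V : Set Z, IsOpen V ∧ z ∈ V ∧ V ∩ D ⊆ {z} := by
    intro z
    by_cases hz : z ∈ D
    · obtain ⟨V, hV, hVD⟩ := isOpen_induced_iff.1 (isOpen_discrete ({⟨z, hz⟩} : Set D))
      refine ⟨V, hV, ?_, ?_⟩
      · have : (⟨z, hz⟩ : D) ∈ (Subtype.val ⁻¹' V : Set D) := by rw [hVD]; rfl
        exact this
      · rintro w ⟨hw, hwD⟩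
        have h1 : (⟨w, hwD⟩ : D) ∈ (Subtype.val ⁻¹' V : Set D) := hw
        rw [hVD] at h1
        exact congrArg Subtype.val (mem_singleton_iff.1 h1)
    · exact ⟨Dᶜ, hDclosed.isOpen_compl, hz, fun w ⟨h1, h2⟩ => absurd h2 h1⟩
  by_cases hcase : {z ∈ D | ∃ a : α, ((Psi.pt a : Psi Λ) : Sp Λ) = z.1}.Infinite
  · refine ⟨_, fun z hz => hz.1, hcase, fun z => {z}, ?_, ?_⟩
    · rintro z ⟨-, a, ha⟩
      refine ⟨?_, rfl⟩
      have h1 := (isOpen_pt (Λ := Λ) a).preimage (continuous_subtype_val (p := (· ∈ Z)))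
      convert h1 using 1
      ext w
      rw [mem_preimage, mem_singleton_iff, mem_singleton_iff, ha]
      exact Subtype.ext_iff
    · intro z
      obtain ⟨V, hV, hzV, hVD⟩ := hD z
      refine ⟨V, hV.mem_nhds hzV, ?_⟩
      have h1 : ∀ w ∈ {d ∈ {z ∈ D | ∃ a : α, ((Psi.pt a : Psi Λ) : Sp Λ) = z.1} |
          (V ∩ {d}).Nonempty}, w = z := by
        rintro w ⟨⟨hwD, -⟩, v, hv1, hv2⟩
        have hv3 : v = w := hv2
        rw [hv3] at hv1
        exact hVD ⟨hv1, hwD⟩
      intro w1 hw1 w2 hw2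
      exact (h1 w1 hw1).trans (h1 w2 hw2).symm
  · -- infinitely many points of the second level
    have hinf2 : {z ∈ D | ∃ p : Idx Λ, ((Psi.lim p : Psi Λ) : Sp Λ) = z.1}.Infinite := by
      intro hfin
      apply hDinf
      have h3 : {z ∈ D | z.1 = OnePoint.infty}.Finite := by
        apply Set.Subsingleton.finite
        rintro w1 ⟨-, h1⟩ w2 ⟨-, h2⟩
        exact Subtype.ext (h1.trans h2.symm)
      refine (((not_infinite.1 hcase).union hfin).union h3).subset ?_
      intro z hz
      obtain ⟨z, hzZ⟩ := z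
      induction z using OnePoint.rec with
      | infty => exact Or.inr ⟨hz, rfl⟩
      | coe w =>
        cases w with
        | pt a => exact Or.inl (Or.inl ⟨hz, a, rfl⟩)
        | lim q => exact Or.inl (Or.inr ⟨hz, q, rfl⟩)
    -- infinity is not in `Z`
    have hinfZ : (OnePoint.infty : Sp Λ) ∉ Z := by
      intro hZ
      obtain ⟨V, hV, hzV, hVD⟩ := hD ⟨_, hZ⟩
      obtain ⟨W, hW, rfl⟩ := isOpen_induced_iff.1 hV
      obtain ⟨K, hK, hKW⟩ := exists_compact_of_nhds (hW.mem_nhds hzV)
      obtain ⟨s, t, -, ht, htK, -⟩ := compact_cover hK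
      apply hinf2
      have h4 : ((fun p : Idx Λ => ((Psi.lim p : Psi Λ) : Sp Λ)) '' t).Finite := ht.image _
      refine (h4.preimage (f := (Subtype.val : Z → Sp Λ)) Subtype.val_injective.injOn).subset ?_
      rintro z ⟨hzD, p, hp⟩
      refine ⟨p, ?_, hp⟩
      by_contra hpt
      have h5 : ((Psi.lim p : Psi Λ) : Sp Λ) ∈ W := hKW _ fun h => hpt (htK p h)
      have h6 : z ∈ (Subtype.val ⁻¹' W : Set Z) ∩ D := ⟨by
        rw [mem_preimage, ← hp]
        exact h5, hzD⟩
      have h7 : z = ⟨_, hZ⟩ := hVD h6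
      rw [h7] at hp
      exact OnePoint.coe_ne_infty _ hp
    -- extract a sequence
    let P : Set (Idx Λ) := {p | ∃ z ∈ D, ((Psi.lim p : Psi Λ) : Sp Λ) = z.1}
    have hPinf : P.Infinite := by
      intro hfin
      apply hinf2
      have h4 : ((fun p : Idx Λ => ((Psi.lim p : Psi Λ) : Sp Λ)) '' P).Finite := hfin.image _
      refine (h4.preimage (f := (Subtype.val : Z → Sp Λ)) Subtype.val_injective.injOn).subset ?_
      rintro z ⟨hzD, p, hp⟩
      exact ⟨p, ⟨z, hzD, hp⟩, hp⟩
    have hPi : Infinite P := hPinf.to_subtype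
    obtain ⟨d⟩ : Nonempty (ℕ ↪ P) := ⟨Infinite.natEmbedding P⟩
    obtain ⟨c, N, hc, hcd, hdisj, havoid⟩ := key_wD' hcof Λ (fun n => (d n).1)
      (fun a b h => d.injective (Subtype.ext h))
    have hcP : ∀ n, c n ∈ P := by
      intro n
      obtain ⟨m, hm⟩ := hcd n
      rw [← hm]
      exact (d m).2
    choose z hzD hz using hcP
    have hzinj : Function.Injective z := by
      intro a b hab
      have h1 : ((Psi.lim (c a) : Psi Λ) : Sp Λ) = ((Psi.lim (c b) : Psi Λ) : Sp Λ) := by
        rw [hz a, hz b, hab]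
      exact hc (Psi.lim.inj (OnePoint.coe_injective h1))
    refine ⟨range z, ?_, Set.infinite_range_of_injective hzinj,
      fun w => {v | ∃ n, w = z n ∧ v.1 ∈ ((↑) '' nb (c n) (N n) : Set (Sp Λ))}, ?_, ?_⟩
    · rintro _ ⟨n, rfl⟩
      exact hzD n
    · rintro _ ⟨n, rfl⟩
      constructor
      · have h1 := (isOpen_coe_nb (c n) (N n)).preimage (continuous_subtype_val (p := (· ∈ Z)))
        convert h1 using 1
        ext v
        constructor
        · rintro ⟨m, hm, hv⟩
          rw [hzinj hm]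
          exact hv
        · intro hv
          exact ⟨n, rfl, hv⟩
      · exact ⟨n, rfl, _, mem_nb_self _ _, hz n⟩
    · rintro ⟨x, hxZ⟩
      induction x using OnePoint.rec with
      | infty => exact absurd hxZ hinfZ
      | coe w =>
        cases w with
        | pt a =>
          refine ⟨{v | v.1 = ((Psi.pt a : Psi Λ) : Sp Λ)}, ?_, ?_⟩
          · exact ((isOpen_pt (Λ := Λ) a).preimage continuous_subtype_val).mem_nhds rfl
          · rintro _ ⟨⟨m, rfl⟩, v, hv1, m', hm', hv2⟩ _ ⟨⟨n, rfl⟩, u, hu1, n', hn', hu2⟩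
            have e1 := hzinj hm'
            have e2 := hzinj hn'
            subst e1 e2
            rw [hv1] at hv2
            rw [hu1] at hu2
            obtain ⟨y1, hy1, hy1'⟩ := hv2
            obtain ⟨y2, hy2, hy2'⟩ := hu2
            rw [OnePoint.coe_injective hy1'] at hy1
            rw [OnePoint.coe_injective hy2'] at hy2
            obtain ⟨i, hi, hi'⟩ := pt_mem_nb hy1
            obtain ⟨j, hj, hj'⟩ := pt_mem_nb hy2
            rw [hdisj m n i j hi hj (hi'.trans hj'.symm)]
        | lim q =>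
          by_cases hq : ∃ n0, q = c n0
          · obtain ⟨n0, rfl⟩ := hq
            refine ⟨{v | v.1 ∈ ((↑) '' nb (c n0) (N n0) : Set (Sp Λ))}, ?_, ?_⟩
            · exact ((isOpen_coe_nb (c n0) (N n0)).preimage continuous_subtype_val).mem_nhds
                ⟨_, mem_nb_self _ _, rfl⟩
            · have hcore : ∀ m, ∀ v : Z, v.1 ∈ ((↑) '' nb (c n0) (N n0) : Set (Sp Λ)) →
                  v.1 ∈ ((↑) '' nb (c m) (N m) : Set (Sp Λ)) → m = n0 := by
                rintro m v ⟨y1, hy1, hy1'⟩ ⟨y2, hy2, hy2'⟩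
                rw [← hy1'] at hy2'
                rw [OnePoint.coe_injective hy2'] at hy2
                cases y1 with
                | pt a =>
                  obtain ⟨i, hi, hi'⟩ := pt_mem_nb hy1
                  obtain ⟨j, hj, hj'⟩ := pt_mem_nb hy2
                  exact (hdisj n0 m i j hi hj (hi'.trans hj'.symm)).symm
                | lim r =>
                  exact hc ((lim_mem_nb hy2).symm.trans (lim_mem_nb hy1))
              rintro _ ⟨⟨m, rfl⟩, v, hv1, m', hm', hv2⟩ _ ⟨⟨n, rfl⟩, u, hu1, n', hn', hu2⟩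
              have e1 := hzinj hm'
              have e2 := hzinj hn'
              subst e1 e2
              rw [hcore m v hv1 hv2, hcore n u hu1 hu2]
          · push Not at hq
            obtain ⟨M, hM⟩ := havoid q hq
            refine ⟨{v | v.1 ∈ ((↑) '' nb q M : Set (Sp Λ))}, ?_, ?_⟩
            · exact ((isOpen_coe_nb q M).preimage continuous_subtype_val).mem_nhds
                ⟨_, mem_nb_self _ _, rfl⟩
            · rintro _ ⟨⟨m, rfl⟩, v, ⟨y1, hy1, hy1'⟩, m', hm', ⟨y2, hy2, hy2'⟩⟩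
              exfalso
              rw [← hy1'] at hy2'
              rw [OnePoint.coe_injective hy2'] at hy2
              cases y1 with
              | pt a =>
                obtain ⟨i, hi, hi'⟩ := pt_mem_nb hy1
                obtain ⟨j, hj, hj'⟩ := pt_mem_nb hy2
                exact hM i hi m' j hj (hi'.trans hj'.symm)
              | lim r =>
                exact hq m' ((lim_mem_nb hy1).symm.trans (lim_mem_nb hy2))

/-- A sequence of points of the Psi-space such that every compact set contains only finitely many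
terms converges to infinity. -/
lemma tendsto_infty_of_compact {u : ℕ → Psi Λ}
    (h : ∀ K : Set (Psi Λ), IsCompact K → ∀ᶠ n in atTop, u n ∉ K) :
    Tendsto (fun n => (u n : Sp Λ)) atTop (𝓝 OnePoint.infty) := by
  intro V hV
  obtain ⟨K, hK, hKV⟩ := exists_compact_of_nhds hV
  exact (h K hK).mono fun n hn => hKV _ hn

theorem frechetUrysohn_sp (hcof : ℵ₀ < Order.cof α) : FrechetUrysohnSpace (Sp Λ) := by
  refine ⟨fun S x hx => ?_⟩
  show ∃ v : ℕ → Sp Λ, (∀ n, v n ∈ S) ∧ Tendsto v atTop (𝓝 x)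
  by_cases hxS : x ∈ S
  · exact ⟨fun _ => x, fun _ => hxS, tendsto_const_nhds⟩
  induction x using OnePoint.rec with
  | coe w =>
    cases w with
    | pt a =>
      exfalso
      obtain ⟨y, hy1, hy2⟩ := mem_closure_iff.1 hx _ (isOpen_pt a) rfl
      rw [mem_singleton_iff] at hy1
      rw [hy1] at hy2
      exact hxS hy2
    | lim p =>
      have h1 : ∀ N, ∃ n, N ≤ n ∧ ((Psi.pt (p.seq n) : Psi Λ) : Sp Λ) ∈ S := by
        intro N
        obtain ⟨y, ⟨w, hw, rfl⟩, hy2⟩ :=
          mem_closure_iff.1 hx _ (isOpen_coe_nb p N) ⟨_, mem_nb_self p N, rfl⟩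
        rcases hw with hw | ⟨n, hn, hw⟩
        · rw [hw] at hy2
          exact absurd hy2 hxS
        · exact ⟨n, hn, by rw [← hw]; exact hy2⟩
      choose n hn1 hn2 using h1
      refine ⟨fun N => ((Psi.pt (p.seq (n N)) : Psi Λ) : Sp Λ), hn2, ?_⟩
      have h2 : Tendsto (fun N => (Psi.pt (p.seq (n N)) : Psi Λ)) atTop (𝓝 (Psi.lim p)) := by
        refine tendsto_nhds.2 fun V hV hp => ?_
        obtain ⟨M, hM⟩ := eventually_atTop.1 (isOpen_iff.1 hV p hp)
        filter_upwards [eventually_ge_atTop M] with N hN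
        exact hM _ (hN.trans (hn1 N))
      exact (OnePoint.continuous_coe.tendsto _).comp h2
  | infty =>
    -- `S` is not relatively compact
    have hnc : ∀ K : Set (Psi Λ), IsCompact K → ∃ w : Psi Λ, (w : Sp Λ) ∈ S ∧ w ∉ K := by
      intro K hK
      have hopen : IsOpen ((↑) '' K : Set (Sp Λ))ᶜ :=
        OnePoint.isOpen_compl_image_coe.2 ⟨hK.isClosed, hK⟩
      obtain ⟨y, hy1, hy2⟩ := mem_closure_iff.1 hx _ hopen (by simp)
      induction y using OnePoint.rec with
      | infty => exact absurd hy2 hxS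
      | coe w => exact ⟨w, hy2, fun hw => hy1 ⟨w, hw, rfl⟩⟩
    by_cases hlim : {p : Idx Λ | ((Psi.lim p : Psi Λ) : Sp Λ) ∈ S}.Infinite
    · -- infinitely many points of the second level
      have hPi : Infinite {p : Idx Λ | ((Psi.lim p : Psi Λ) : Sp Λ) ∈ S} := hlim.to_subtype
      obtain ⟨d⟩ : Nonempty (ℕ ↪ {p : Idx Λ | ((Psi.lim p : Psi Λ) : Sp Λ) ∈ S}) :=
        ⟨Infinite.natEmbedding _⟩
      refine ⟨fun n => ((Psi.lim (d n).1 : Psi Λ) : Sp Λ), fun n => (d n).2,
        tendsto_infty_of_compact fun K hK => ?_⟩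
      obtain ⟨s, t, -, ht, htK, -⟩ := compact_cover hK
      have hfin : {n | (d n).1 ∈ t}.Finite :=
        ht.preimage (f := fun n => (d n).1) (fun a _ b _ h => d.injective (Subtype.ext h))
      have h3 := hfin.compl_mem_cofinite
      rw [Nat.cofinite_eq_atTop] at h3
      filter_upwards [h3] with n hn hK'
      exact hn (htK _ hK')
    · rw [not_infinite] at hlim
      let A : Set α := {a | ((Psi.pt a : Psi Λ) : Sp Λ) ∈ S}
      -- criterion for convergence
      have hcrit : ∀ u : ℕ → α, (∀ n, u n ∈ A) → Function.Injective u →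
          (∀ p : Idx Λ, {n | u n ∈ range p.seq}.Finite) →
          ∃ v : ℕ → Sp Λ, (∀ n, v n ∈ S) ∧ Tendsto v atTop (𝓝 OnePoint.infty) := by
        intro u huA hu hp
        refine ⟨fun n => ((Psi.pt (u n) : Psi Λ) : Sp Λ), huA,
          tendsto_infty_of_compact fun K hK => ?_⟩
        obtain ⟨s, t, hs, ht, -, hKc⟩ := compact_cover hK
        have hfin1 : {n | u n ∈ s}.Finite := hs.preimage (fun a _ b _ h => hu h)
        have hfin2 : (⋃ p ∈ t, {n | u n ∈ range p.seq}).Finite := ht.biUnion fun p _ => hp p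
        have h3 := (hfin1.union hfin2).compl_mem_cofinite
        rw [Nat.cofinite_eq_atTop] at h3
        filter_upwards [h3] with n hn hK'
        apply hn
        rcases hKc _ hK' with h | ⟨p, hpt, hp'⟩
        · exact Or.inl h
        · exact Or.inr (mem_iUnion₂.2 ⟨p, hpt, hp'⟩)
      by_cases hmany : {p : Idx Λ | (A ∩ range p.seq).Infinite}.Infinite
      · have hPi : Infinite {p : Idx Λ | (A ∩ range p.seq).Infinite} := hmany.to_subtype
        obtain ⟨d⟩ : Nonempty (ℕ ↪ {p : Idx Λ | (A ∩ range p.seq).Infinite}) :=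
          ⟨Infinite.natEmbedding _⟩
        obtain ⟨c, N, hc, hcd, hdisj, havoid⟩ := key_wD' hcof Λ (fun n => (d n).1)
          (fun a b h => d.injective (Subtype.ext h))
        have hcinf : ∀ n, (A ∩ range (c n).seq).Infinite := by
          intro n
          obtain ⟨m, hm⟩ := hcd n
          rw [← hm]
          exact (d m).2
        have hpick : ∀ n, ∃ i, N n ≤ i ∧ (c n).seq i ∈ A := by
          intro n
          by_contra hcon
          push Not at hcon
          apply hcinf n
          refine ((Set.finite_Iio (N n)).image (c n).seq).subset ?_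
          rintro _ ⟨hA, i, rfl⟩
          refine ⟨i, ?_, rfl⟩
          by_contra hi
          exact hcon i (not_lt.1 hi) hA
        choose i hi1 hi2 using hpick
        refine hcrit (fun n => (c n).seq (i n)) hi2
          (fun m n h => hdisj m n _ _ (hi1 m) (hi1 n) h) fun p => ?_
        by_cases hp : ∃ n0, p = c n0
        · obtain ⟨n0, rfl⟩ := hp
          -- only finitely many indices (in fact those with small values)
          have hsub : {n | (c n).seq (i n) ∈ range (c n0).seq} ⊆
              {n0} ∪ {n | (c n).seq (i n) ∈ (c n0).seq '' Iio (N n0)} := by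
            rintro n ⟨m, hm⟩
            by_cases hmN : N n0 ≤ m
            · left
              exact (hdisj n0 n m (i n) hmN (hi1 n) hm).symm
            · right
              exact ⟨m, not_le.1 hmN, hm⟩
          refine ((finite_singleton n0).union ?_).subset hsub
          refine (((Set.finite_Iio (N n0)).image (c n0).seq).preimage
            (f := fun n => (c n).seq (i n)) ?_)
          intro a _ b _ h
          exact hdisj a b _ _ (hi1 a) (hi1 b) h
        · push Not at hp
          obtain ⟨M, hM⟩ := havoid p hp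
          have hsub : {n | (c n).seq (i n) ∈ range p.seq} ⊆
              {n | (c n).seq (i n) ∈ p.seq '' Iio M} := by
            rintro n ⟨m, hm⟩
            refine ⟨m, ?_, hm⟩
            by_contra hmM
            exact hM m (not_lt.1 hmM) n (i n) (hi1 n) hm
          refine Finite.subset ?_ hsub
          refine (((Set.finite_Iio M).image p.seq).preimage
            (f := fun n => (c n).seq (i n)) ?_)
          intro a _ b _ h
          exact hdisj a b _ _ (hi1 a) (hi1 b) h
      · rw [not_infinite] at hmany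
        -- remove the finitely many members that meet `A` in an infinite set
        let A' : Set α := A \ ⋃ p ∈ {p : Idx Λ | (A ∩ range p.seq).Infinite}, range p.seq
        have hA'inf : A'.Infinite := by
          intro hfin
          -- then `S` is relatively compact
          let K : Set (Psi Λ) := (Psi.pt '' A') ∪
            (⋃ p ∈ {p : Idx Λ | (A ∩ range p.seq).Infinite}, nb p 0) ∪
            (Psi.lim '' {p : Idx Λ | ((Psi.lim p : Psi Λ) : Sp Λ) ∈ S})
          have hK : IsCompact K :=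
            ((hfin.image _).isCompact.union (hmany.isCompact_biUnion fun p _ => isCompact_nb p 0)).union
              (hlim.image _).isCompact
          obtain ⟨w, hw1, hw2⟩ := hnc K hK
          apply hw2
          cases w with
          | pt a =>
            left
            by_cases ha : a ∈ ⋃ p ∈ {p : Idx Λ | (A ∩ range p.seq).Infinite}, range p.seq
            · right
              obtain ⟨p, hp, n, hn⟩ := mem_iUnion₂.1 ha
              exact mem_iUnion₂.2 ⟨p, hp, Or.inr ⟨n, Nat.zero_le _, by rw [hn]⟩⟩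
            · left
              exact ⟨a, ⟨hw1, ha⟩, rfl⟩
          | lim q => exact Or.inr ⟨q, hw1, rfl⟩
        have hAi : Infinite A' := hA'inf.to_subtype
        obtain ⟨d⟩ : Nonempty (ℕ ↪ A') := ⟨Infinite.natEmbedding A'⟩
        refine hcrit (fun n => (d n).1) (fun n => (d n).2.1)
          (fun a b h => d.injective (Subtype.ext h)) fun p => ?_
        by_cases hp : (A ∩ range p.seq).Infinite
        · convert Set.finite_empty (α := ℕ)
          rw [Set.eq_empty_iff_forall_notMem]
          intro n hn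
          exact (d n).2.2 (mem_iUnion₂.2 ⟨p, hp, hn⟩)
        · rw [not_infinite] at hp
          refine (hp.preimage (f := fun n => (d n).1)
            (fun a _ b _ h => d.injective (Subtype.ext h))).subset ?_
          intro n hn
          exact ⟨(d n).2.1, hn⟩

end Pool.Agent.W_MP_88e59f_gt
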